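import Pool.Agent.R371.DD.Comb2

/-!
The generating function: Cauchy estimate for `P(s) / U(x0 s)` through the reflection formula.
-/

namespace R371DD

open Complex Finset

/-- the smallest pole -/
noncomputable def x0 : ℝ := 2 * Real.pi / (3 * Real.sqrt 3)

noncomputable def om : ℂ := -1 / 2 + (Real.sqrt 3 / 2 : ℝ) * I
noncomputable def om' : ℂ := -1 / 2 - (Real.sqrt 3 / 2 : ℝ) * I

theorem sqrt3_sq : ((Real.sqrt 3 : ℝ) : ℂ) ^ 2 = 3 := by
  rw [← Complex.ofReal_pow, Real.sq_sqrt (by norm_num)]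
  norm_num

theorem sqrt3_ne : ((Real.sqrt 3 : ℝ) : ℂ) ≠ 0 := by
  intro h
  have := sqrt3_sq
  rw [h] at this
  norm_num at this

theorem om_sq : om ^ 2 = -1 - om := by
  unfold om
  push_cast
  ring_nf
  rw [I_sq, sqrt3_sq]
  ring

theorem om'_sq : om' ^ 2 = -1 - om' := by
  unfold om'
  push_cast
  ring_nf
  rw [I_sq, sqrt3_sq]
  ring

theorem om_pow (q : ℕ → ℝ) (hq : ∀ k, q k + q (k + 1) + q (k + 2) = 0) (hq0 : q 0 = 0)
    (hq1 : q 1 = 1) (n : ℕ) : (om ^ n - om' ^ n) / (I * (Real.sqrt 3 : ℝ)) = (q n : ℂ) := by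
  have hne : (I * ((Real.sqrt 3 : ℝ) : ℂ)) ≠ 0 := mul_ne_zero I_ne_zero sqrt3_ne
  have key : ∀ n, (om ^ n - om' ^ n) / (I * (Real.sqrt 3 : ℝ)) = (q n : ℂ) ∧
      (om ^ (n + 1) - om' ^ (n + 1)) / (I * (Real.sqrt 3 : ℝ)) = (q (n + 1) : ℂ) := by
    intro n
    induction n with
    | zero =>
      constructor
      · simp [hq0]
      · rw [zero_add, pow_one, pow_one, hq1, div_eq_iff hne]
        unfold om om'
        push_cast
        ring
    | succ n ih =>
      refine ⟨ih.2, ?_⟩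
      have h1 : (q (n + 1 + 1) : ℂ) = -(q n : ℂ) - (q (n + 1) : ℂ) := by
        have := hq n
        have h2 : q (n + 1 + 1) = - q n - q (n + 1) := by linarith
        rw [h2]
        push_cast
        ring
      rw [h1, ← ih.1, ← ih.2, div_eq_iff hne]
      rw [sub_mul, neg_mul, div_mul_cancel₀ _ hne, div_mul_cancel₀ _ hne]
      have e1 : om ^ (n + 1 + 1) = om ^ n * (-1 - om) := by rw [← om_sq]; ring
      have e2 : om' ^ (n + 1 + 1) = om' ^ n * (-1 - om') := by rw [← om'_sq]; ring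
      rw [e1, e2]
      ring
  exact (key n).1

/-- the exponential polynomial `sum p_n (x0 s)^n / n!` -/
noncomputable def gg (s : ℂ) : ℂ :=
  (om * cexp (om * x0 * s) - om' * cexp (om' * x0 * s)) / (I * (Real.sqrt 3 : ℝ))

noncomputable def ff (s : ℂ) : ℂ :=
  (9 * Real.sqrt 3 / (4 * Real.pi) : ℝ) * Gamma ((4 - s) / 3) * Gamma ((5 + s) / 3) *
    cexp (x0 * s / 2)

theorem x0_eq : (Real.sqrt 3 : ℝ) * x0 / 2 = Real.pi / 3 := by
  unfold x0
  have : Real.sqrt 3 ≠ 0 := by positivity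
  field_simp

theorem exp_pi_third : cexp (Real.pi / 3 * I) = - om' := by
  rw [exp_mul_I]
  have h1 : cos ((Real.pi : ℂ) / 3) = 1 / 2 := by
    have := Real.cos_pi_div_three
    have h2 : ((Real.cos (Real.pi / 3) : ℝ) : ℂ) = ((1 / 2 : ℝ) : ℂ) := by rw [this]
    push_cast at h2
    exact h2
  have h2 : sin ((Real.pi : ℂ) / 3) = (Real.sqrt 3 / 2 : ℝ) := by
    have := Real.sin_pi_div_three
    have h2 : ((Real.sin (Real.pi / 3) : ℝ) : ℂ) = ((Real.sqrt 3 / 2 : ℝ) : ℂ) := by rw [this]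
    push_cast at h2 ⊢
    exact h2
  rw [h1, h2]
  unfold om'
  ring

theorem exp_neg_pi_third : cexp (-(Real.pi / 3 * I)) = - om := by
  have h := exp_pi_third
  have h2 : cexp (Real.pi / 3 * I) * cexp (-(Real.pi / 3 * I)) = 1 := by
    rw [← Complex.exp_add, add_neg_cancel, Complex.exp_zero]
  have h3 : om' * om = 1 := by
    unfold om' om
    push_cast
    ring_nf
    rw [I_sq, sqrt3_sq]
    ring
  rw [h] at h2
  have h4 : om' ≠ 0 := by
    intro h0
    rw [h0, zero_mul] at h3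
    norm_num at h3
  have h5 : om' * cexp (-(Real.pi / 3 * I)) = om' * (-om) := by
    linear_combination -h2 + h3
  exact mul_left_cancel₀ h4 h5

theorem gg_eq (s : ℂ) : gg s = 2 / (Real.sqrt 3 : ℝ) * cexp (-(x0 * s / 2)) *
    sin (Real.pi * ((1 - s) / 3)) := by
  have hx : (((Real.sqrt 3 : ℝ) : ℂ)) * (x0 : ℂ) / 2 = Real.pi / 3 := by
    have := x0_eq
    have h2 : (((Real.sqrt 3 : ℝ) * x0 / 2 : ℝ) : ℂ) = ((Real.pi / 3 : ℝ) : ℂ) := by rw [this]
    push_cast at h2
    exact h2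
  have h1 : om * x0 * s = -(x0 * s / 2) + (Real.pi / 3 * I) * s := by
    unfold om
    push_cast
    linear_combination (I * s) * hx
  have h2 : om' * x0 * s = -(x0 * s / 2) + -((Real.pi / 3 * I) * s) := by
    unfold om'
    push_cast
    linear_combination -(I * s) * hx
  unfold gg
  rw [h1, h2, Complex.exp_add, Complex.exp_add, Complex.sin]
  have h3 : -(Real.pi * ((1 - s) / 3)) * I = -(Real.pi / 3 * I) + (Real.pi / 3 * I) * s := by
    ring
  have h4 : (Real.pi * ((1 - s) / 3)) * I = (Real.pi / 3 * I) + -((Real.pi / 3 * I) * s) := by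
    ring
  rw [h3, h4, Complex.exp_add, Complex.exp_add, exp_pi_third, exp_neg_pi_third]
  have hne := sqrt3_ne
  have hI := I_ne_zero
  field_simp
  ring_nf
  rw [I_sq]
  ring

theorem mul_fg (s : ℂ) (h0 : s ≠ 1) (h1 : s ≠ -2) (h2 : sin (Real.pi * ((1 - s) / 3)) ≠ 0) :
    gg s * ff s = 1 - s / 2 - s ^ 2 / 2 := by
  rw [gg_eq]
  unfold ff
  set z : ℂ := (1 - s) / 3 with hz
  have e1 : (4 - s) / 3 = z + 1 := by rw [hz]; ring
  have e2 : (5 + s) / 3 = (1 - z) + 1 := by rw [hz]; ring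
  have hz0 : z ≠ 0 := by
    rw [hz]
    intro h
    apply h0
    linear_combination -3 * h
  have hz1 : 1 - z ≠ 0 := by
    rw [hz]
    intro h
    apply h1
    linear_combination 3 * h
  rw [e1, e2, Gamma_add_one z hz0, Gamma_add_one (1 - z) hz1]
  have hG := Complex.Gamma_mul_Gamma_one_sub z
  have hexp : cexp (-(x0 * s / 2)) * cexp (x0 * s / 2) = 1 := by
    rw [← Complex.exp_add, neg_add_cancel, Complex.exp_zero]
  have hpi : (Real.pi : ℂ) ≠ 0 := by exact_mod_cast Real.pi_ne_zero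
  have hne := sqrt3_ne
  calc 2 / (Real.sqrt 3 : ℝ) * cexp (-(x0 * s / 2)) * sin (Real.pi * z) *
      ((9 * Real.sqrt 3 / (4 * Real.pi) : ℝ) * (z * Gamma z) * ((1 - z) * Gamma (1 - z)) *
        cexp (x0 * s / 2))
      = (2 / (Real.sqrt 3 : ℝ) * (9 * Real.sqrt 3 / (4 * Real.pi) : ℝ)) *
        (cexp (-(x0 * s / 2)) * cexp (x0 * s / 2)) * (z * (1 - z)) *
          ((Gamma z * Gamma (1 - z)) * sin (Real.pi * z)) := by ring
    _ = (9 / (2 * Real.pi)) * (z * (1 - z)) * Real.pi := by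
        rw [hexp, hG, div_mul_cancel₀ _ h2]
        push_cast
        field_simp
        ring
    _ = 1 - s / 2 - s ^ 2 / 2 := by
        rw [hz]
        field_simp
        ring

theorem norm_Gamma_le (s : ℂ) (hs : 0 < s.re) : ‖Gamma s‖ ≤ Real.Gamma s.re := by
  rw [Gamma_eq_integral hs, Real.Gamma_eq_integral hs, GammaIntegral]
  refine (MeasureTheory.norm_integral_le_integral_norm _).trans (le_of_eq ?_)
  refine MeasureTheory.setIntegral_congr_fun measurableSet_Ioi fun x hx => ?_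
  have hx' : 0 < x := hx
  simp only [norm_mul]
  rw [Complex.norm_real, Complex.norm_cpow_eq_rpow_re_of_pos hx', Real.norm_eq_abs,
    abs_of_pos (Real.exp_pos _)]
  simp

theorem Gamma_le_one {x : ℝ} (h1 : 1 ≤ x) (h2 : x ≤ 2) : Real.Gamma x ≤ 1 := by
  have := Real.convexOn_Gamma.le_max_of_mem_Icc (x := 1) (y := 2) (z := x)
    (by simp) (by simp) ⟨h1, h2⟩
  rw [Real.Gamma_one, Real.Gamma_two, max_self] at this
  exact this

theorem Gamma_small {x : ℝ} (h1 : 0 < x) (h2 : x ≤ 1) : Real.Gamma x ≤ 1 / x := by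
  have h4 := Real.Gamma_add_one (s := x) h1.ne'
  have h5 := Gamma_le_one (x := x + 1) (by linarith) (by linarith)
  rw [h4] at h5
  rw [le_div_iff₀ h1, mul_comm]
  exact h5

theorem Gamma_big {x : ℝ} (h1 : 2 ≤ x) (h2 : x ≤ 3) : Real.Gamma x ≤ x - 1 := by
  have h4 := Real.Gamma_add_one (s := x - 1) (by linarith)
  rw [sub_add_cancel] at h4
  have h5 := Gamma_le_one (x := x - 1) (by linarith) (by linarith)
  rw [h4]
  nlinarith

theorem Gamma_le_three {x : ℝ} (h1 : 1 / 3 ≤ x) (h2 : x ≤ 7 / 3) : Real.Gamma x ≤ 3 := by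
  rcases le_total x 1 with h3 | h3
  · refine (Gamma_small (by linarith) h3).trans ?_
    rw [div_le_iff₀ (by linarith)]
    linarith
  · rcases le_total x 2 with h4 | h4
    · exact (Gamma_le_one h3 h4).trans (by norm_num)
    · exact (Gamma_big h4 (by linarith)).trans (by linarith)

theorem Gamma_le_five_thirds {x : ℝ} (h1 : 2 / 3 ≤ x) (h2 : x ≤ 8 / 3) :
    Real.Gamma x ≤ 5 / 3 := by
  rcases le_total x 1 with h3 | h3
  · refine (Gamma_small (by linarith) h3).trans ?_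
    rw [div_le_iff₀ (by linarith)]
    linarith
  · rcases le_total x 2 with h4 | h4
    · exact (Gamma_le_one h3 h4).trans (by norm_num)
    · exact (Gamma_big h4 (by linarith)).trans (by linarith)

theorem re_bound {s : ℂ} (hs : ‖s‖ ≤ 3) : -3 ≤ s.re ∧ s.re ≤ 3 := by
  have := Complex.abs_re_le_norm s
  exact abs_le.mp (this.trans hs)

theorem re1 (s : ℂ) : ((4 - s) / 3).re = (4 - s.re) / 3 := by
  have : (4 - s) / 3 = (4 - s) / ((3 : ℝ) : ℂ) := by norm_num
  rw [this, Complex.div_ofReal_re]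
  simp

theorem re2 (s : ℂ) : ((5 + s) / 3).re = (5 + s.re) / 3 := by
  have : (5 + s) / 3 = (5 + s) / ((3 : ℝ) : ℂ) := by norm_num
  rw [this, Complex.div_ofReal_re]
  simp

theorem x0_pos : 0 < x0 := by
  unfold x0
  positivity

theorem x0_bounds : 1.209 < x0 ∧ x0 < 1.2093 := by
  unfold x0
  have h3 : 1.73205 < Real.sqrt 3 := by
    apply Real.lt_sqrt_of_sq_lt
    norm_num
  have h3' : Real.sqrt 3 < 1.73206 := by
    rw [Real.sqrt_lt' (by norm_num)]
    norm_num
  have hp := Real.pi_gt_d6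
  have hp' := Real.pi_lt_d6
  constructor
  · rw [lt_div_iff₀ (by positivity)]
    linarith
  · rw [div_lt_iff₀ (by positivity)]
    linarith

theorem norm_ff_le {s : ℂ} (hs : ‖s‖ ≤ 3) : ‖ff s‖ ≤ 46 := by
  obtain ⟨ha, hb⟩ := re_bound hs
  unfold ff
  rw [norm_mul, norm_mul, norm_mul, Complex.norm_real, Real.norm_eq_abs,
    abs_of_pos (by positivity), Complex.norm_exp]
  have h1 : ‖Gamma ((4 - s) / 3)‖ ≤ 3 := by
    refine (norm_Gamma_le _ ?_).trans ?_
    · rw [re1]; linarith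
    · rw [re1]
      exact Gamma_le_three (by linarith) (by linarith)
  have h2 : ‖Gamma ((5 + s) / 3)‖ ≤ 5 / 3 := by
    refine (norm_Gamma_le _ ?_).trans ?_
    · rw [re2]; linarith
    · rw [re2]
      exact Gamma_le_five_thirds (by linarith) (by linarith)
  have h3 : ((x0 : ℂ) * s / 2).re = x0 * s.re / 2 := by
    have : (x0 : ℂ) * s / 2 = ((x0 / 2 : ℝ) : ℂ) * s := by push_cast; ring
    rw [this, Complex.re_ofReal_mul]
    ring
  have hx := x0_bounds
  have h4 : Real.exp (((x0 : ℂ) * s / 2).re) ≤ 7.39 := by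
    rw [h3]
    have h5 : x0 * s.re / 2 ≤ 2 := by nlinarith [x0_pos]
    refine (Real.exp_le_exp.mpr h5).trans ?_
    have h6 : Real.exp 2 = Real.exp 1 * Real.exp 1 := by
      rw [← Real.exp_add]; norm_num
    rw [h6]
    have h7 := Real.exp_one_lt_d9
    nlinarith [Real.exp_pos 1]
  have h5 : 9 * Real.sqrt 3 / (4 * Real.pi) ≤ 1.2415 := by
    have h3' : Real.sqrt 3 < 1.73206 := by
      rw [Real.sqrt_lt' (by norm_num)]
      norm_num
    have hp := Real.pi_gt_d2
    rw [div_le_iff₀ (by positivity)]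
    linarith
  calc 9 * Real.sqrt 3 / (4 * Real.pi) * ‖Gamma ((4 - s) / 3)‖ * ‖Gamma ((5 + s) / 3)‖ *
      Real.exp (((x0 : ℂ) * s / 2).re) ≤ 1.2415 * 3 * (5 / 3) * 7.39 := by
        gcongr
    _ ≤ 46 := by norm_num

theorem differentiableAt_ff {s : ℂ} (hs : ‖s‖ ≤ 3) : DifferentiableAt ℂ ff s := by
  obtain ⟨ha, hb⟩ := re_bound hs
  have hneg : ∀ z : ℂ, 0 < z.re → ∀ m : ℕ, z ≠ -m := by
    intro z hz m h
    rw [h] at hz
    simp at hz
    have : (0 : ℝ) ≤ m := Nat.cast_nonneg m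
    linarith
  have h1 : DifferentiableAt ℂ Gamma ((4 - s) / 3) :=
    Complex.differentiableAt_Gamma _ (hneg _ (by rw [re1]; linarith))
  have h2 : DifferentiableAt ℂ Gamma ((5 + s) / 3) :=
    Complex.differentiableAt_Gamma _ (hneg _ (by rw [re2]; linarith))
  unfold ff
  have h3 : DifferentiableAt ℂ (fun s : ℂ => Gamma ((4 - s) / 3)) s :=
    DifferentiableAt.comp (g := Gamma) s h1 (by fun_prop)
  have h4 : DifferentiableAt ℂ (fun s : ℂ => Gamma ((5 + s) / 3)) s :=
    DifferentiableAt.comp (g := Gamma) s h2 (by fun_prop)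
  exact ((((differentiableAt_const _).mul h3).mul h4).mul (by fun_prop))

theorem ff_diffContOnCl : DiffContOnCl ℂ ff (Metric.ball 0 3) := by
  apply DifferentiableOn.diffContOnCl
  rw [closure_ball (0 : ℂ) (by norm_num : (3 : ℝ) ≠ 0)]
  intro s hs
  exact (differentiableAt_ff (by simpa using hs)).differentiableWithinAt

/-- Taylor coefficients of `ff` -/
noncomputable def wc (n : ℕ) : ℂ := iteratedDeriv n ff 0 / (n.factorial : ℂ)

theorem wc_bound (n : ℕ) : ‖wc n‖ ≤ 46 / 3 ^ n := by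
  unfold wc
  rw [norm_div]
  have h1 := Complex.norm_iteratedDeriv_le_of_forall_mem_sphere_norm_le n
    (by norm_num : (0 : ℝ) < 3) ff_diffContOnCl (C := 46)
    (fun z hz => norm_ff_le (by simpa using (mem_sphere_zero_iff_norm.mp hz).le))
  have h2 : ‖(n.factorial : ℂ)‖ = n.factorial := by simp
  rw [h2, div_le_iff₀ (by positivity)]
  calc ‖iteratedDeriv n ff 0‖ ≤ n.factorial * 46 / 3 ^ n := h1
    _ = 46 / 3 ^ n * n.factorial := by ring

theorem iteratedDeriv_gg (q : ℕ → ℝ) (hq : ∀ k, q k + q (k + 1) + q (k + 2) = 0)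
    (hq0 : q 0 = 0) (hq1 : q 1 = 1) (n : ℕ) :
    iteratedDeriv n gg 0 = (q (n + 1) : ℂ) * (x0 : ℂ) ^ n := by
  have h1 : ∀ c : ℂ, iteratedDeriv n (fun s : ℂ => cexp (c * s)) = fun s => c ^ n * cexp (c * s) := by
    intro c
    rw [iteratedDeriv_cexp_const_mul]
  have h2 : gg = fun s => (om / (I * (Real.sqrt 3 : ℝ))) * cexp (om * x0 * s) -
      (om' / (I * (Real.sqrt 3 : ℝ))) * cexp (om' * x0 * s) := by
    funext s
    unfold gg
    ring
  have hc : ∀ c d : ℂ, ContDiffAt ℂ n (fun s : ℂ => d * cexp (c * s)) 0 := by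
    intro c d
    fun_prop
  rw [h2]
  have h3 := iteratedDeriv_fun_sub (n := n) (x := (0 : ℂ)) (hc (om * x0) (om / (I * (Real.sqrt 3 : ℝ))))
    (hc (om' * x0) (om' / (I * (Real.sqrt 3 : ℝ))))
  rw [h3, iteratedDeriv_const_mul_field, iteratedDeriv_const_mul_field, h1, h1]
  simp only [mul_zero, Complex.exp_zero, mul_one]
  rw [← om_pow q hq hq0 hq1 (n + 1)]
  ring

end R371DD
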