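import Pool.Agent.R371.DD.Anal

/-!
Consequences for the normalised sequence `up n * x0 ^ n`, and the row estimates.
-/

namespace R371DD

open Complex Finset PowerSeries

/-- the standing assumption on the 3-periodic sequence `0, 1, -1, 0, 1, -1, …` -/
structure Per (q : ℕ → ℝ) : Prop where
  rec3 : ∀ k, q k + q (k + 1) + q (k + 2) = 0
  zero : q 0 = 0
  one : q 1 = 1

theorem Per.abs_le {q : ℕ → ℝ} (h : Per q) (k : ℕ) : |q k| ≤ 1 ∧ |q (k + 1)| ≤ 1 ∧
    |q k + q (k + 1)| ≤ 1 := by
  induction k with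
  | zero => simp [h.zero, h.one]
  | succ k ih =>
    obtain ⟨h1, h2, h3⟩ := ih
    have h4 : q (k + 2) = -(q k + q (k + 1)) := by linarith [h.rec3 k]
    refine ⟨h2, ?_, ?_⟩
    · show |q (k + 2)| ≤ 1
      rw [h4, abs_neg]
      exact h3
    · show |q (k + 1) + q (k + 2)| ≤ 1
      have : q (k + 1) + q (k + 2) = - q k := by linarith [h.rec3 k]
      rw [this, abs_neg]
      exact h1

/-- normalised sequence -/
noncomputable def U (n : ℕ) : ℝ := up n * x0 ^ n

noncomputable def Us : PowerSeries ℝ := PowerSeries.mk U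

noncomputable def Gs (q : ℕ → ℝ) : PowerSeries ℝ :=
  PowerSeries.mk fun k => q (k + 1) * x0 ^ k / (k.factorial : ℝ)

theorem Gs_mul_Us {q : ℕ → ℝ} (h : Per q) : Gs q * Us = 1 := by
  ext n
  rw [PowerSeries.coeff_mul, PowerSeries.coeff_one,
    Finset.Nat.sum_antidiagonal_eq_sum_range_succ
      (fun a b => coeff a (Gs q) * coeff b Us) n]
  simp only [Gs, Us, PowerSeries.coeff_mk, U]
  rcases n with _ | n
  · simp [h.one, up_zero]
  · rw [if_neg (by omega)]
    have h1 := up_rec (fun k => q (k + 1)) (fun k => h.rec3 (k + 1))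
      (by have := h.rec3 0; rw [h.zero] at this; linarith) n
    have h2 : ∀ k ∈ range (n + 1 + 1), q (k + 1) * x0 ^ k / (k.factorial : ℝ) *
        (up (n + 1 - k) * x0 ^ (n + 1 - k)) =
        x0 ^ (n + 1) * (q (k + 1) / (k.factorial : ℝ) * up (n + 1 - k)) := by
      intro k hk
      rw [Finset.mem_range] at hk
      have : x0 ^ (n + 1) = x0 ^ k * x0 ^ (n + 1 - k) := by
        rw [← pow_add]; congr 1; omega
      rw [this]
      ring
    rw [Finset.sum_congr rfl h2, ← Finset.mul_sum, h1, mul_zero]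

/-- the polynomial `(1 - s)(1 + s/2)` -/
noncomputable def Ps : PowerSeries ℝ := 1 - PowerSeries.C (1 / 2) * X - PowerSeries.C (1 / 2) * X ^ 2

noncomputable def Ws : PowerSeries ℝ := Ps * Us

theorem eventually_mul : (fun s => gg s * ff s) =ᶠ[nhds 0]
    (fun s : ℂ => 1 - s / 2 - s ^ 2 / 2) := by
  have h1 : ∀ᶠ s : ℂ in nhds 0, s ≠ 1 := by
    apply isOpen_ne.mem_nhds
    simp
  have h2 : ∀ᶠ s : ℂ in nhds 0, s ≠ -2 := by
    apply isOpen_ne.mem_nhds
    simp
  have h3 : ∀ᶠ s : ℂ in nhds 0, sin (Real.pi * ((1 - s) / 3)) ≠ 0 := by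
    have hc : Continuous fun s : ℂ => sin (Real.pi * ((1 - s) / 3)) := by fun_prop
    apply hc.continuousAt.eventually_ne
    have e : (Real.pi : ℂ) * ((1 - 0) / 3) = ((Real.pi / 3 : ℝ) : ℂ) := by push_cast; ring
    rw [e, ← Complex.ofReal_sin, Real.sin_pi_div_three]
    have : Real.sqrt 3 / 2 ≠ 0 := by positivity
    exact_mod_cast this
  filter_upwards [h1, h2, h3] with s a b c
  exact mul_fg s a b c

theorem coeff_Ps (n : ℕ) : iteratedDeriv n (fun s : ℂ => 1 - s / 2 - s ^ 2 / 2) 0 =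
    (n.factorial : ℂ) * ((coeff n Ps : ℝ) : ℂ) := by
  have h0 : (fun s : ℂ => 1 - s / 2 - s ^ 2 / 2) =
      fun s : ℂ => (1 / 2 : ℂ) * (2 * s ^ 0 - s ^ 1 - s ^ 2) := by
    funext s; ring
  rw [h0, iteratedDeriv_const_mul_field]
  have h1 : iteratedDeriv n (fun s : ℂ => 2 * s ^ 0 - s ^ 1 - s ^ 2) 0 =
      2 * iteratedDeriv n (fun s : ℂ => s ^ 0) 0 - iteratedDeriv n (fun s : ℂ => s ^ 1) 0 -
        iteratedDeriv n (fun s : ℂ => s ^ 2) 0 := by
    rw [iteratedDeriv_fun_sub (by fun_prop) (by fun_prop),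
      iteratedDeriv_fun_sub (by fun_prop) (by fun_prop), iteratedDeriv_const_mul_field]
  rw [h1, iteratedDeriv_fun_pow_zero, iteratedDeriv_fun_pow_zero, iteratedDeriv_fun_pow_zero]
  unfold Ps
  simp only [map_sub, PowerSeries.coeff_one, PowerSeries.coeff_C_mul, PowerSeries.coeff_X,
    PowerSeries.coeff_X_pow]
  rcases n with _ | _ | _ | n
  · simp
  · simp
  · simp
  · simp

theorem wc_eq {q : ℕ → ℝ} (h : Per q) (n : ℕ) : wc n = ((coeff n Ws : ℝ) : ℂ) := by
  -- complex power series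
  set m : ℝ →+* ℂ := Complex.ofRealHom with hm
  set Wc : PowerSeries ℂ := PowerSeries.mk wc with hWc
  have hprod : PowerSeries.map m (Gs q) * Wc = PowerSeries.map m Ps := by
    ext n
    rw [PowerSeries.coeff_mul, Finset.Nat.sum_antidiagonal_eq_sum_range_succ
      (fun a b => coeff a (PowerSeries.map m (Gs q)) * coeff b Wc) n]
    have hfac : (n.factorial : ℂ) ≠ 0 := by
      exact_mod_cast Nat.factorial_ne_zero n
    have h1 := eventually_mul.iteratedDeriv_eq n
    rw [coeff_Ps] at h1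
    have hg : ContDiffAt ℂ n gg 0 := by
      unfold gg
      fun_prop
    have hf : ContDiffAt ℂ n ff 0 := by
      have ha : AnalyticAt ℂ ff 0 := by
        have hd : DifferentiableOn ℂ ff (Metric.ball 0 3) := fun s hs =>
          (differentiableAt_ff (by simpa using (mem_ball_zero_iff.mp hs).le)).differentiableWithinAt
        exact hd.analyticAt (Metric.ball_mem_nhds 0 (by norm_num))
      exact ha.contDiffAt
    rw [iteratedDeriv_fun_mul hg hf] at h1
    rw [PowerSeries.coeff_map]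
    have h2 : (m (coeff n Ps) : ℂ) = ((coeff n Ps : ℝ) : ℂ) := rfl
    rw [h2]
    have h3 : ∀ k ∈ range (n + 1), coeff k (PowerSeries.map m (Gs q)) * coeff (n - k) Wc =
        1 / (n.factorial : ℂ) * (n.choose k * iteratedDeriv k gg 0 * iteratedDeriv (n - k) ff 0) := by
      intro k hk
      rw [Finset.mem_range] at hk
      rw [PowerSeries.coeff_map, iteratedDeriv_gg q h.rec3 h.zero h.one, hWc,
        PowerSeries.coeff_mk]
      unfold wc Gs
      rw [PowerSeries.coeff_mk]
      have h4 : ((n.choose k : ℕ) : ℂ) * (k.factorial : ℂ) * ((n - k).factorial : ℂ) =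
          (n.factorial : ℂ) := by
        exact_mod_cast Nat.choose_mul_factorial_mul_factorial (by omega : k ≤ n)
      have h5 : (k.factorial : ℂ) ≠ 0 := by exact_mod_cast Nat.factorial_ne_zero k
      have h6 : ((n - k).factorial : ℂ) ≠ 0 := by exact_mod_cast Nat.factorial_ne_zero (n - k)
      have h7 : m (q (k + 1) * x0 ^ k / (k.factorial : ℝ)) =
          (q (k + 1) : ℂ) * (x0 : ℂ) ^ k / (k.factorial : ℂ) := by
        simp [hm]
      rw [h7]
      field_simp
      rw [← h4]
      ring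
    rw [Finset.sum_congr rfl h3, ← Finset.mul_sum, h1]
    field_simp
  have h1 : PowerSeries.map m (Gs q) * PowerSeries.map m Us = 1 := by
    rw [← map_mul, Gs_mul_Us h, map_one]
  have h2 : Wc = PowerSeries.map m Ws := by
    calc Wc = (PowerSeries.map m (Gs q) * PowerSeries.map m Us) * Wc := by rw [h1, one_mul]
      _ = (PowerSeries.map m (Gs q) * Wc) * PowerSeries.map m Us := by ring
      _ = PowerSeries.map m Ws := by rw [hprod, ← map_mul]; rfl
  have h3 : coeff n Wc = coeff n (PowerSeries.map m Ws) := by rw [h2]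
  rw [hWc, PowerSeries.coeff_mk, PowerSeries.coeff_map] at h3
  exact h3

theorem W_bound {q : ℕ → ℝ} (h : Per q) (n : ℕ) : |coeff n Ws| ≤ 46 / 3 ^ n := by
  have h1 := wc_bound n
  rw [wc_eq h, Complex.norm_real, Real.norm_eq_abs] at h1
  exact h1

theorem W_zero (Z : PowerSeries ℝ) (n : ℕ) : coeff (n + 2) (Ps * Z) =
    coeff (n + 2) Z - 1 / 2 * coeff (n + 1) Z - 1 / 2 * coeff n Z := by
  unfold Ps
  rw [sub_mul, sub_mul, one_mul, map_sub, map_sub, mul_assoc, mul_assoc,
    PowerSeries.coeff_C_mul, PowerSeries.coeff_C_mul]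
  have h1 : coeff (n + 2) (X * Z) = coeff (n + 1) Z := PowerSeries.coeff_succ_X_mul (n + 1) Z
  have h2 : coeff (n + 2) (X ^ 2 * Z) = coeff n Z := by
    rw [PowerSeries.coeff_X_pow_mul']
    simp
  rw [h1, h2]

end R371DD
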