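import Pool.Agent.R371.DD.Comb2

/-!
The finite table, checked by the kernel.
-/

namespace R371DD

open Finset

/-- `25! * up n` for `n ≤ 25` -/
def vL : List ℤ := [ 15511210043330985984000000, 15511210043330985984000000, 15511210043330985984000000,
   12926008369442488320000000, 10987107114026115072000000, 9048205858609741824000000,
   7518628201559047372800000, 6207561638372737843200000, 5138857732113474969600000,
   4247843696197374873600000, 3513792607812457850880000, 2905539279451579330560000,
   2403005763505511324160000, 1987210582116352750080000, 1643434480947159774720000,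
   1359099238337727651072000, 1123970218100843241744000, 929514154236213645792000,
   768702735063708900840000, 635711748233075408664000, 525729506553527649357600,
   434774751509277500838000, 359555846224459000367400, 297350282643533398330800,
   245906707909247681514025, 203363208990477977575681]

/-- `25! / k!` for `k ≤ 25` -/
def cL : List ℤ := [ 15511210043330985984000000, 15511210043330985984000000, 7755605021665492992000000,
   2585201673888497664000000, 646300418472124416000000, 129260083694424883200000,
   21543347282404147200000, 3077621040343449600000, 384702630042931200000,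
   42744736671436800000, 4274473667143680000, 388588515194880000, 32382376266240000,
   2490952020480000, 177925144320000, 11861676288000, 741354768000, 43609104000, 2422728000,
   127512000, 6375600, 303600, 13800, 600, 25, 1]

/-- `51! / m!` for `m ≤ 51` -/
def CL : List ℤ := [ 1551118753287382280224243016469303211063259720016986112000000000000,
   1551118753287382280224243016469303211063259720016986112000000000000,
   775559376643691140112121508234651605531629860008493056000000000000,
   258519792214563713370707169411550535177209953336164352000000000000,
   64629948053640928342676792352887633794302488334041088000000000000,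
   12925989610728185668535358470577526758860497666808217600000000000,
   2154331601788030944755893078429587793143416277801369600000000000,
   307761657398290134965127582632798256163345182543052800000000000,
   38470207174786266870640947829099782020418147817881600000000000,
   4274467463865140763404549758788864668935349757542400000000000,
   427446746386514076340454975878886466893534975754240000000000,
   38858795126046734212768634170807860626684997795840000000000,
   3238232927170561184397386180900655052223749816320000000000,
   249094840551581629569029706223127311709519216640000000000,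
   17792488610827259254930693301651950836394229760000000000,
   1186165907388483950328712886776796722426281984000000000,
   74135369211780246895544555423549795151642624000000000,
   4360904071281190993855562083738223244214272000000000,
   242272448404510610769753449096567958011904000000000,
   12751181494974242672092286794556208316416000000000,
   637559074748712133604614339727810415820800000000,
   30359955940414863504981635225133829324800000000,
   1379997997291584704771892510233355878400000000,
   59999912925721074120517065662319820800000000, 2499996371905044755021544402596659200000000,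
   99999854876201790200861776103866368000000, 3846148264469299623110068311687168000000,
   142449935721085171226298826358784000000, 5087497704324470400939243798528000000,
   175430955321533462101353234432000000, 5847698510717782070045107814400000,
   188635435829605873227261542400000, 5894857369675183538351923200000,
   178632041505308592071270400000, 5253883573685546825625600000, 150110959248158480732160000,
   4169748868004402242560000, 112695915351470330880000, 2965681982933429760000,
   76043127767523840000, 1901078194188096000, 46367760833856000, 1103994305568000,
   25674286176000, 583506504000, 12966811200, 281887200, 5997600, 124950, 2550, 51, 1]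

/-- the sequence `0, 1, -1, 0, 1, -1, …` -/
def qz (n : ℕ) : ℤ := if n % 3 = 0 then 0 else if n % 3 = 1 then 1 else -1

def dot (f : ℕ → ℤ) : ℕ → ℤ
  | 0 => 0
  | n + 1 => dot f n + f n

theorem dot_eq (f : ℕ → ℤ) (n : ℕ) : dot f n = ∑ k ∈ range n, f k := by
  induction n with
  | zero => rfl
  | succ n ih => rw [dot, ih, Finset.sum_range_succ]

def row (a j : ℕ) : ℤ := dot (fun b => (qz a * qz (b + 1) - qz (a + 1) * qz b) *
  CL.getD (a + b + 2) 0 * vL.getD (j - 1 - b) 0) j

def T (i j : ℕ) : ℤ := dot (fun a => vL.getD (i - 1 - a) 0 * row a j) i

def sgn (i : ℕ) (x : ℤ) : ℤ := if i % 2 = 0 then x else -x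

def chkRow (i : ℕ) : Bool :=
  (List.range 27).all fun j => decide (j ≤ i) || decide (0 < sgn i (T i j))

def chkBig (i j : ℕ) (c : ℤ) : Bool :=
  decide (c * 1000 ^ (i + j) * (51).factorial * (25).factorial ^ 2 <
    sgn i (T i j) * 1209 ^ (i + j) * 3 ^ 26)

theorem rows1 : ((List.range 15).all fun i => decide (i < 2) || chkRow i) = true := by
  decide +kernel

theorem rows2 : ((List.range 5).all fun i => chkRow (i + 15)) = true := by
  decide +kernel

theorem rows3 : ((List.range 5).all fun i => chkRow (i + 20)) = true := by
  decide +kernel

theorem big1 : ((List.range 25).all fun i => decide (i < 2) ||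
    (chkBig i 25 6000 && chkBig i 26 6000)) = true := by
  decide +kernel

theorem big2 : chkBig 25 26 24000 = true := by
  decide +kernel

theorem recv : ((List.range 25).all fun n =>
    decide (dot (fun k => qz (k + 1) * cL.getD k 0 * vL.getD (n + 1 - k) 0) (n + 2) = 0)) =
      true := by
  decide +kernel

theorem chkc : ((List.range 26).all fun k => decide (cL.getD k 0 * k.factorial =
    (25).factorial)) = true := by
  decide +kernel

theorem chkC : ((List.range 52).all fun k => decide (CL.getD k 0 * k.factorial =
    (51).factorial)) = true := by
  decide +kernel

theorem qz_rec (k : ℕ) : qz k + qz (k + 1) + qz (k + 2) = 0 := by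
  unfold qz
  have h : k % 3 = 0 ∨ k % 3 = 1 ∨ k % 3 = 2 := by omega
  rcases h with h | h | h
  · have h1 : (k + 1) % 3 = 1 := by omega
    have h2 : (k + 2) % 3 = 2 := by omega
    simp [h, h1, h2]
  · have h1 : (k + 1) % 3 = 2 := by omega
    have h2 : (k + 2) % 3 = 0 := by omega
    simp [h, h1, h2]
  · have h1 : (k + 1) % 3 = 0 := by omega
    have h2 : (k + 2) % 3 = 1 := by omega
    simp [h, h1, h2]

/-- the real sequence -/
noncomputable def qr (n : ℕ) : ℝ := (qz n : ℝ)

theorem qr_rec (k : ℕ) : qr k + qr (k + 1) + qr (k + 2) = 0 := by
  unfold qr
  exact_mod_cast qz_rec k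

theorem qr_zero : qr 0 = 0 := by simp [qr, qz]
theorem qr_one : qr 1 = 1 := by simp [qr, qz]

theorem cL_eq {k : ℕ} (hk : k ≤ 25) :
    ((cL.getD k 0 : ℤ) : ℝ) = ((25).factorial : ℝ) / (k.factorial : ℝ) := by
  have h := chkc
  rw [List.all_eq_true] at h
  have h1 := h k (List.mem_range.mpr (by omega))
  have h2 := of_decide_eq_true h1
  rw [eq_div_iff (by positivity)]
  exact_mod_cast h2

theorem CL_eq {k : ℕ} (hk : k ≤ 51) :
    ((CL.getD k 0 : ℤ) : ℝ) = ((51).factorial : ℝ) / (k.factorial : ℝ) := by
  have h := chkC
  rw [List.all_eq_true] at h
  have h1 := h k (List.mem_range.mpr (by omega))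
  have h2 := of_decide_eq_true h1
  rw [eq_div_iff (by positivity)]
  exact_mod_cast h2

theorem vL_eq (n : ℕ) : n ≤ 25 → ((vL.getD n 0 : ℤ) : ℝ) = ((25).factorial : ℝ) * up n := by
  induction n using Nat.strong_induction_on with
  | _ n ih =>
    intro hn
    rcases n with _ | n
    · rw [up_zero, mul_one]
      have : vL.getD 0 0 = ((25).factorial : ℤ) := by decide +kernel
      rw [this]
      norm_cast
    · have h := recv
      rw [List.all_eq_true] at h
      have h1 := h n (List.mem_range.mpr (by omega))
      have h2 := of_decide_eq_true h1
      rw [dot_eq] at h2
      have h3 : (∑ k ∈ range (n + 2), qr (k + 1) * (cL.getD k 0 : ℤ) *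
          (vL.getD (n + 1 - k) 0 : ℤ)) = 0 := by
        unfold qr
        exact_mod_cast h2
      have h4 := up_rec (fun k => qr (k + 1)) (fun k => qr_rec (k + 1))
        (by have := qr_rec 0; rw [qr_zero] at this; linarith) n
      rw [Finset.sum_range_succ'] at h3 h4
      have h5 : ∀ k ∈ range (n + 1), qr (k + 1 + 1) * (cL.getD (k + 1) 0 : ℤ) *
          (vL.getD (n + 1 - (k + 1)) 0 : ℤ) = ((25).factorial : ℝ) * ((25).factorial : ℝ) *
          (qr (k + 1 + 1) / ((k + 1).factorial : ℝ) * up (n + 1 - (k + 1))) := by
        intro k hk
        rw [Finset.mem_range] at hk
        rw [cL_eq (by omega), ih (n + 1 - (k + 1)) (by omega) (by omega)]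
        ring
      rw [Finset.sum_congr rfl h5, ← Finset.mul_sum] at h3
      rw [cL_eq (by omega)] at h3
      simp only [zero_add, qr_one, Nat.factorial_zero, Nat.cast_one, div_one, one_mul,
        Nat.sub_zero] at h3 h4
      have hpos : ((25).factorial : ℝ) ≠ 0 := by positivity
      have h6 : ((25).factorial : ℝ) * (((vL.getD (n + 1) 0 : ℤ) : ℝ) -
          ((25).factorial : ℝ) * up (n + 1)) = 0 := by
        linear_combination h3 - ((25).factorial : ℝ) * ((25).factorial : ℝ) * h4
      have h7 := (mul_eq_zero.mp h6).resolve_left hpos
      linarith

theorem del_eq_T {i j : ℕ} (hi : i ≤ 25) (hj : j ≤ 26) :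
    del qr i j * ((51).factorial * (25).factorial ^ 2 : ℝ) = ((T i j : ℤ) : ℝ) := by
  unfold T row del
  rw [dot_eq]
  simp only [dot_eq]
  push_cast
  rw [Finset.sum_mul]
  refine Finset.sum_congr rfl fun a ha => ?_
  rw [Finset.sum_mul, Finset.mul_sum]
  refine Finset.sum_congr rfl fun b hb => ?_
  rw [Finset.mem_range] at ha hb
  rw [vL_eq _ (by omega), vL_eq _ (by omega), CL_eq (by omega)]
  unfold qr
  ring

end R371DD
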