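import Pool.Agent.R371.DD.Anal2
import Pool.Agent.R371.DD.Table

/-!
The sign of the differences.
-/

namespace R371DD

open Finset PowerSeries

theorem hP : Per qr := ⟨qr_rec, qr_zero, qr_one⟩

theorem up_one : up 1 = 1 := by
  have h := vL_eq 1 (by norm_num)
  have h1 : vL.getD 1 0 = ((25).factorial : ℤ) := by decide +kernel
  rw [h1] at h
  have h2 : ((25).factorial : ℝ) ≠ 0 := by positivity
  have h3 : ((25).factorial : ℝ) * 1 = ((25).factorial : ℝ) * up 1 := by
    rw [mul_one, ← h]; norm_cast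
  exact (mul_left_cancel₀ h2 h3).symm

theorem up_two : up 2 = 1 := by
  have h := vL_eq 2 (by norm_num)
  have h1 : vL.getD 2 0 = ((25).factorial : ℤ) := by decide +kernel
  rw [h1] at h
  have h2 : ((25).factorial : ℝ) ≠ 0 := by positivity
  have h3 : ((25).factorial : ℝ) * 1 = ((25).factorial : ℝ) * up 2 := by
    rw [mul_one, ← h]; norm_cast
  exact (mul_left_cancel₀ h2 h3).symm

theorem up_three : up 3 = 5 / 6 := by
  have h := vL_eq 3 (by norm_num)
  have h1 : 6 * vL.getD 3 0 = 5 * ((25).factorial : ℤ) := by decide +kernel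
  have h2 : ((25).factorial : ℝ) ≠ 0 := by positivity
  have h3 : 6 * ((vL.getD 3 0 : ℤ) : ℝ) = 5 * ((25).factorial : ℝ) := by exact_mod_cast h1
  rw [h] at h3
  have h4 : ((25).factorial : ℝ) * (6 * up 3) = ((25).factorial : ℝ) * 5 := by linarith
  have h5 := mul_left_cancel₀ h2 h4
  linarith

theorem U_rec (n : ℕ) : |U (n + 2) - 1 / 2 * U (n + 1) - 1 / 2 * U n| ≤ 46 / 3 ^ (n + 2) := by
  have h := W_bound hP (n + 2)
  unfold Ws at h
  rw [W_zero] at h
  simp only [Us, PowerSeries.coeff_mk] at h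
  exact h

theorem U_bound_aux (n : ℕ) : |U (n + 2)| ≤ 2.34 - 23 / 3 ^ (n + 3) ∧
    |U (n + 3)| ≤ 2.34 - 23 / 3 ^ (n + 3) := by
  obtain ⟨hx1, hx2⟩ := x0_bounds
  induction n with
  | zero =>
    have h2 : U 2 = x0 ^ 2 := by unfold U; rw [up_two, one_mul]
    have h3 : U 3 = 5 / 6 * x0 ^ 3 := by unfold U; rw [up_three]
    have e2 : x0 ^ 2 ≤ 1.2093 ^ 2 := by gcongr
    have e3 : x0 ^ 3 ≤ 1.2093 ^ 3 := by gcongr
    have p2 : 0 < x0 ^ 2 := pow_pos x0_pos 2
    have p3 : 0 < x0 ^ 3 := pow_pos x0_pos 3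
    constructor
    · rw [h2, abs_of_pos p2]
      norm_num at e2 ⊢
      linarith
    · rw [h3, abs_of_pos (by positivity)]
      norm_num at e3 ⊢
      linarith
  | succ n ih =>
    obtain ⟨h1, h2⟩ := ih
    have h3 := U_rec (n + 2)
    have e : (3 : ℝ) ^ (n + 1 + 3) = 3 * 3 ^ (n + 3) := by ring
    have e2 : (3 : ℝ) ^ (n + 2 + 2) = 3 * 3 ^ (n + 3) := by ring
    have hp : (0 : ℝ) < 3 ^ (n + 3) := by positivity
    have e3 : (23 : ℝ) / (3 * 3 ^ (n + 3)) = (23 / 3 ^ (n + 3)) / 3 := by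
      field_simp
    have e4 : (46 : ℝ) / (3 * 3 ^ (n + 3)) = 2 * (23 / 3 ^ (n + 3)) / 3 := by
      field_simp
      norm_num
    have hq : 0 < 23 / (3 : ℝ) ^ (n + 3) := by positivity
    rw [e, e3]
    rw [e2, e4] at h3
    rw [abs_le] at h1 h2 h3
    refine ⟨?_, ?_⟩
    · show |U (n + 3)| ≤ _
      rw [abs_le]
      constructor <;> linarith [h2.1, h2.2]
    · show |U (n + 4)| ≤ _
      rw [abs_le]
      constructor <;> linarith [h1.1, h1.2, h2.1, h2.2, h3.1, h3.2]

theorem U_bound (n : ℕ) : |U n| ≤ 2.34 := by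
  obtain ⟨hx1, hx2⟩ := x0_bounds
  rcases n with _ | _ | n
  · unfold U
    rw [up_zero]
    norm_num
  · unfold U
    rw [zero_add, up_one, one_mul, pow_one, abs_of_pos x0_pos]
    linarith
  · have h := (U_bound_aux n).1
    have : (0 : ℝ) < 23 / 3 ^ (n + 3) := by positivity
    linarith

/-- coefficients of the row functions -/
noncomputable def rc (i b : ℕ) : ℝ := ∑ a ∈ range i, (qr a * qr (b + 1) - qr (a + 1) * qr b) /
    ((a + b + 2).factorial : ℝ) * x0 ^ (a + b + 2) * U (i - 1 - a)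

noncomputable def Rs (i : ℕ) : PowerSeries ℝ := PowerSeries.mk (rc i)

/-- normalised differences -/
noncomputable def D (i j : ℕ) : ℝ := x0 ^ (i + j) * del qr i j

theorem D_row (i j : ℕ) : D i (j + 1) = coeff j (Rs i * Us) := by
  rw [PowerSeries.coeff_mul, Finset.Nat.sum_antidiagonal_eq_sum_range_succ
    (fun a b => coeff a (Rs i) * coeff b Us) j]
  unfold D del Rs Us
  simp only [PowerSeries.coeff_mk]
  unfold rc
  rw [Finset.sum_congr rfl (fun b _ => Finset.sum_mul _ _ _), Finset.sum_comm, Finset.mul_sum]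
  refine Finset.sum_congr rfl fun b hb => ?_
  rw [Finset.mul_sum]
  refine Finset.sum_congr rfl fun a ha => ?_
  rw [Finset.mem_range] at ha hb
  unfold U
  have e1 : j + 1 - 1 - b = j - b := by omega
  have e2 : x0 ^ (i + (j + 1)) = x0 ^ (a + b + 2) * x0 ^ (i - 1 - a) * x0 ^ (j - b) := by
    rw [← pow_add, ← pow_add]
    congr 1
    omega
  rw [e1, e2]
  ring

theorem qL (a b : ℕ) : |qr a * qr (b + 1) - qr (a + 1) * qr b| ≤ 1 := by
  have key : ∀ n : ℕ, (qr n = 0 ∧ qr (n + 1) = 1) ∨ (qr n = 1 ∧ qr (n + 1) = -1) ∨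
      (qr n = -1 ∧ qr (n + 1) = 0) := by
    intro n
    induction n with
    | zero => exact Or.inl ⟨qr_zero, qr_one⟩
    | succ n ih =>
      have h := qr_rec n
      have h2 : qr (n + 1 + 1) = qr (n + 2) := rfl
      rcases ih with ⟨h0, h1⟩ | ⟨h0, h1⟩ | ⟨h0, h1⟩
      · right; left
        exact ⟨h1, by rw [h2]; linarith⟩
      · right; right
        exact ⟨h1, by rw [h2]; linarith⟩
      · left
        exact ⟨h1, by rw [h2]; linarith⟩
  rcases key a with ⟨h0, h1⟩ | ⟨h0, h1⟩ | ⟨h0, h1⟩ <;>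
    rcases key b with ⟨k0, k1⟩ | ⟨k0, k1⟩ | ⟨k0, k1⟩ <;>
    rw [h0, h1, k0, k1] <;> norm_num

theorem sum_pow_fact_le (x : ℝ) (hx : 0 ≤ x) (n : ℕ) :
    ∑ a ∈ range n, x ^ (a + 1) / ((a + 1).factorial : ℝ) ≤ Real.exp x - 1 := by
  have h := Real.sum_le_exp_of_nonneg hx (n + 1)
  rw [Finset.sum_range_succ'] at h
  simp only [pow_zero, Nat.factorial_zero, Nat.cast_one, div_one] at h
  linarith

theorem term_le (a b : ℕ) : x0 ^ (a + b + 2) / ((a + b + 2).factorial : ℝ) ≤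
    x0 ^ (a + 1) / ((a + 1).factorial : ℝ) * (x0 ^ (b + 1) / ((b + 1).factorial : ℝ)) := by
  rw [div_mul_div_comm, ← pow_add]
  have e : a + 1 + (b + 1) = a + b + 2 := by omega
  rw [e]
  have h : (a + 1).factorial * (b + 1).factorial ≤ (a + b + 2).factorial := by
    have := Nat.factorial_mul_factorial_dvd_factorial_add (a + 1) (b + 1)
    rw [e] at this
    exact Nat.le_of_dvd (Nat.factorial_pos _) this
  have h' : ((a + 1).factorial : ℝ) * ((b + 1).factorial : ℝ) ≤ ((a + b + 2).factorial : ℝ) := by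
    exact_mod_cast h
  have hx := x0_pos
  exact div_le_div_of_nonneg_left (by positivity) (by positivity) h'

theorem exp_x0_le : Real.exp x0 ≤ 3.438 := by
  obtain ⟨hx1, hx2⟩ := x0_bounds
  have h1 : Real.exp x0 ≤ Real.exp (1 + 0.2093) := Real.exp_le_exp.mpr (by linarith)
  rw [Real.exp_add] at h1
  have h2 : Real.exp 0.2093 ≤ 1 / (1 - 0.2093) :=
    Real.exp_bound_div_one_sub_of_interval (by norm_num) (by norm_num)
  have h3 := Real.exp_one_lt_d9
  calc Real.exp x0 ≤ Real.exp 1 * Real.exp 0.2093 := h1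
    _ ≤ 2.7182818286 * (1 / (1 - 0.2093)) := by
        gcongr
    _ ≤ 3.438 := by norm_num

theorem rc_le (i b : ℕ) : |rc i b| ≤ 2.34 * 2.438 * (x0 ^ (b + 1) / ((b + 1).factorial : ℝ)) := by
  have hx := x0_pos
  unfold rc
  refine (Finset.abs_sum_le_sum_abs _ _).trans ?_
  have h1 : ∀ a ∈ range i, |(qr a * qr (b + 1) - qr (a + 1) * qr b) /
    ((a + b + 2).factorial : ℝ) * x0 ^ (a + b + 2) * U (i - 1 - a)| ≤
      x0 ^ (a + 1) / ((a + 1).factorial : ℝ) *
        (2.34 * (x0 ^ (b + 1) / ((b + 1).factorial : ℝ))) := by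
    intro a _
    rw [abs_mul, abs_mul, abs_div, abs_of_pos (pow_pos hx _),
      abs_of_pos (by positivity : (0 : ℝ) < ((a + b + 2).factorial : ℝ))]
    have h2 := term_le a b
    calc |qr a * qr (b + 1) - qr (a + 1) * qr b| / ((a + b + 2).factorial : ℝ) *
          x0 ^ (a + b + 2) * |U (i - 1 - a)|
        ≤ 1 / ((a + b + 2).factorial : ℝ) * x0 ^ (a + b + 2) * 2.34 := by
          gcongr
          · exact qL a b
          · exact U_bound _
      _ = x0 ^ (a + b + 2) / ((a + b + 2).factorial : ℝ) * 2.34 := by ring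
      _ ≤ x0 ^ (a + 1) / ((a + 1).factorial : ℝ) * (x0 ^ (b + 1) / ((b + 1).factorial : ℝ)) *
          2.34 := by gcongr
      _ = _ := by ring
  refine (Finset.sum_le_sum h1).trans ?_
  rw [← Finset.sum_mul]
  have h3 := sum_pow_fact_le x0 hx.le i
  have h4 := exp_x0_le
  have h5 : ∑ a ∈ range i, x0 ^ (a + 1) / ((a + 1).factorial : ℝ) ≤ 2.438 := by linarith
  calc (∑ a ∈ range i, x0 ^ (a + 1) / ((a + 1).factorial : ℝ)) *
        (2.34 * (x0 ^ (b + 1) / ((b + 1).factorial : ℝ)))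
      ≤ 2.438 * (2.34 * (x0 ^ (b + 1) / ((b + 1).factorial : ℝ))) := by gcongr
    _ = _ := by ring

theorem coeff_RW (i n : ℕ) : |coeff n (Rs i * Ws)| ≤ 3500 / 3 ^ n := by
  have hx := x0_pos
  rw [PowerSeries.coeff_mul, Finset.Nat.sum_antidiagonal_eq_sum_range_succ
    (fun a b => coeff a (Rs i) * coeff b Ws) n]
  refine (Finset.abs_sum_le_sum_abs _ _).trans ?_
  have h1 : ∀ b ∈ range (n + 1), |coeff b (Rs i) * coeff (n - b) Ws| ≤
      (3 * x0) ^ (b + 1) / ((b + 1).factorial : ℝ) * (2.34 * 2.438 * 46 / 3 / 3 ^ n) := by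
    intro b hb
    rw [Finset.mem_range] at hb
    rw [abs_mul]
    have h2 : |coeff b (Rs i)| ≤ 2.34 * 2.438 * (x0 ^ (b + 1) / ((b + 1).factorial : ℝ)) := by
      unfold Rs
      rw [PowerSeries.coeff_mk]
      exact rc_le i b
    have h3 := W_bound hP (n - b)
    have h4 : (3 : ℝ) ^ n = 3 ^ b * 3 ^ (n - b) := by
      rw [← pow_add]; congr 1; omega
    calc |coeff b (Rs i)| * |coeff (n - b) Ws|
        ≤ (2.34 * 2.438 * (x0 ^ (b + 1) / ((b + 1).factorial : ℝ))) * (46 / 3 ^ (n - b)) := by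
          gcongr
      _ = (3 * x0) ^ (b + 1) / ((b + 1).factorial : ℝ) *
          (2.34 * 2.438 * 46 / 3 / (3 ^ b * 3 ^ (n - b))) := by
          rw [mul_pow, pow_succ 3 b]
          field_simp
      _ = _ := by rw [h4]
  refine (Finset.sum_le_sum h1).trans ?_
  rw [← Finset.sum_mul]
  have h3 := sum_pow_fact_le (3 * x0) (by positivity) (n + 1)
  have h4 : Real.exp (3 * x0) ≤ 3.438 ^ 3 := by
    have : Real.exp (3 * x0) = Real.exp x0 ^ 3 := by
      rw [← Real.exp_nat_mul]; norm_num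
    rw [this]
    have := exp_x0_le
    gcongr
  have h5 : ∑ a ∈ range (n + 1), (3 * x0) ^ (a + 1) / ((a + 1).factorial : ℝ) ≤
      3.438 ^ 3 - 1 := by linarith
  calc (∑ a ∈ range (n + 1), (3 * x0) ^ (a + 1) / ((a + 1).factorial : ℝ)) *
        (2.34 * 2.438 * 46 / 3 / 3 ^ n)
      ≤ (3.438 ^ 3 - 1) * (2.34 * 2.438 * 46 / 3 / 3 ^ n) := by gcongr
    _ = ((3.438 ^ 3 - 1) * (2.34 * 2.438 * 46 / 3)) / 3 ^ n := by ring
    _ ≤ 3500 / 3 ^ n := by
        gcongr
        norm_num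

theorem D_rec (i j : ℕ) : |D i (j + 3) - 1 / 2 * D i (j + 2) - 1 / 2 * D i (j + 1)| ≤
    12000 / 3 ^ (j + 3) := by
  rw [D_row, D_row, D_row, ← W_zero]
  have h : Ps * (Rs i * Us) = Rs i * Ws := by
    unfold Ws
    ring
  rw [h]
  refine (coeff_RW i (j + 2)).trans ?_
  rw [div_le_div_iff₀ (by positivity) (by positivity), pow_succ 3 (j + 2)]
  have : (0 : ℝ) < 3 ^ (j + 2) := by positivity
  nlinarith

theorem D_antisymm (i j : ℕ) : D i j = - D j i := by
  unfold D del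
  rw [Finset.sum_comm, add_comm i j, ← mul_neg, ← Finset.sum_neg_distrib]
  congr 1
  refine Finset.sum_congr rfl fun a _ => ?_
  rw [← Finset.sum_neg_distrib]
  refine Finset.sum_congr rfl fun b _ => ?_
  rw [add_comm b a]
  ring

/-- a sequence with small second-order defect stays above a positive bound -/
theorem seqA (G : ℕ → ℝ) (J : ℕ) (m : ℝ)
    (hrec : ∀ j, J ≤ j → |G (j + 2) - 1 / 2 * G (j + 1) - 1 / 2 * G j| ≤ 12000 / 3 ^ (j + 2))
    (h0 : m ≤ G J) (h1 : m ≤ G (J + 1)) (k : ℕ) :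
    m - 6000 * (1 / 3 ^ (J + 1) - 1 / 3 ^ (J + 1 + k)) ≤ G (J + k) ∧
    m - 6000 * (1 / 3 ^ (J + 1) - 1 / 3 ^ (J + 1 + k)) ≤ G (J + k + 1) := by
  induction k with
  | zero =>
    simp only [add_zero, sub_self, mul_zero, sub_zero]
    exact ⟨h0, h1⟩
  | succ k ih =>
    obtain ⟨a, b⟩ := ih
    have h := hrec (J + k) (by omega)
    have e : (3 : ℝ) ^ (J + k + 2) = 3 * 3 ^ (J + 1 + k) := by
      rw [← pow_succ']; congr 1; omega
    have e2 : (3 : ℝ) ^ (J + 1 + (k + 1)) = 3 * 3 ^ (J + 1 + k) := by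
      rw [← pow_succ']; congr 1
    have hp : (0 : ℝ) < 3 ^ (J + 1 + k) := by positivity
    have e3 : (12000 : ℝ) / (3 * 3 ^ (J + 1 + k)) = 4000 * (1 / 3 ^ (J + 1 + k)) := by
      field_simp
      norm_num
    have e4 : (1 : ℝ) / (3 * 3 ^ (J + 1 + k)) = (1 / 3 ^ (J + 1 + k)) / 3 := by
      field_simp
    have hq : 0 < 1 / (3 : ℝ) ^ (J + 1 + k) := by positivity
    rw [e, e3, abs_le] at h
    rw [e2, e4]
    have e5 : J + (k + 1) = J + k + 1 := by omega
    rw [e5]
    have e6 : J + k + 1 + 1 = J + k + 2 := by omega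
    rw [e6]
    constructor
    · linarith
    · linarith [h.1]

theorem seqA_pos (G : ℕ → ℝ) (J : ℕ) (m : ℝ)
    (hrec : ∀ j, J ≤ j → |G (j + 2) - 1 / 2 * G (j + 1) - 1 / 2 * G j| ≤ 12000 / 3 ^ (j + 2))
    (h0 : m ≤ G J) (h1 : m ≤ G (J + 1)) (hm : 6000 / 3 ^ (J + 1) ≤ m) (j : ℕ) (hj : J ≤ j) :
    0 < G j := by
  obtain ⟨k, rfl⟩ : ∃ k, j = J + k := ⟨j - J, by omega⟩
  have h := (seqA G J m hrec h0 h1 k).1
  have hq : 0 < 1 / (3 : ℝ) ^ (J + 1 + k) := by positivity
  have e : (6000 : ℝ) / 3 ^ (J + 1) = 6000 * (1 / 3 ^ (J + 1)) := by ring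
  rw [e] at hm
  linarith

theorem G_rec (i : ℕ) (j : ℕ) (hj : 1 ≤ j) :
    |(-1) ^ i * D i (j + 2) - 1 / 2 * ((-1) ^ i * D i (j + 1)) - 1 / 2 * ((-1) ^ i * D i j)| ≤
      12000 / 3 ^ (j + 2) := by
  obtain ⟨k, rfl⟩ : ∃ k, j = k + 1 := ⟨j - 1, by omega⟩
  have h := D_rec i k
  have e : (-1) ^ i * D i (k + 1 + 2) - 1 / 2 * ((-1) ^ i * D i (k + 1 + 1)) -
      1 / 2 * ((-1) ^ i * D i (k + 1)) =
      (-1) ^ i * (D i (k + 3) - 1 / 2 * D i (k + 2) - 1 / 2 * D i (k + 1)) := by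
    ring
  rw [e, abs_mul, abs_pow, abs_neg, abs_one, one_pow, one_mul]
  exact h

theorem sgn_T {i j : ℕ} (hi : i ≤ 25) (hj : j ≤ 26) : ((sgn i (T i j) : ℤ) : ℝ) =
    (-1) ^ i * del qr i j * ((51).factorial * (25).factorial ^ 2 : ℝ) := by
  unfold sgn
  rw [mul_assoc, del_eq_T hi hj]
  rcases Nat.even_or_odd i with he | ho
  · rw [if_pos (Nat.even_iff.mp he), he.neg_one_pow, one_mul]
  · have : ¬ i % 2 = 0 := by rw [Nat.odd_iff.mp ho]; norm_num
    rw [if_neg this, ho.neg_one_pow]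
    push_cast
    ring

theorem table_pos {i j : ℕ} (h2 : 2 ≤ i) (hi : i ≤ 24) (hij : i < j) (hj : j ≤ 26) :
    0 < (-1) ^ i * del qr i j := by
  have hrow : chkRow i = true := by
    rcases Nat.lt_or_ge i 15 with h | h
    · have h1 := rows1
      rw [List.all_eq_true] at h1
      have h3 := h1 i (List.mem_range.mpr h)
      rw [Bool.or_eq_true] at h3
      rcases h3 with h3 | h3
      · have := of_decide_eq_true h3
        omega
      · exact h3
    · rcases Nat.lt_or_ge i 20 with h' | h'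
      · have h1 := rows2
        rw [List.all_eq_true] at h1
        have h3 := h1 (i - 15) (List.mem_range.mpr (by omega))
        have e : i - 15 + 15 = i := by omega
        rw [e] at h3
        exact h3
      · have h1 := rows3
        rw [List.all_eq_true] at h1
        have h3 := h1 (i - 20) (List.mem_range.mpr (by omega))
        have e : i - 20 + 20 = i := by omega
        rw [e] at h3
        exact h3
  unfold chkRow at hrow
  rw [List.all_eq_true] at hrow
  have h3 := hrow j (List.mem_range.mpr (by omega))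
  rw [Bool.or_eq_true] at h3
  rcases h3 with h3 | h3
  · have := of_decide_eq_true h3
    omega
  · have h4 := of_decide_eq_true h3
    have h5 : (0 : ℝ) < ((sgn i (T i j) : ℤ) : ℝ) := by exact_mod_cast h4
    rw [sgn_T (by omega) hj] at h5
    exact (mul_pos_iff_of_pos_right (by positivity)).mp h5

theorem big_bound {i j : ℕ} (c : ℤ) (hi : i ≤ 25) (hj : j ≤ 26) (hc : 0 ≤ c)
    (h : chkBig i j c = true) : (c : ℝ) / 3 ^ 26 < (-1) ^ i * D i j := by
  unfold chkBig at h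
  have h1 := of_decide_eq_true h
  have h2 : (c : ℝ) * 1000 ^ (i + j) * ((51).factorial : ℝ) * ((25).factorial : ℝ) ^ 2 <
      ((sgn i (T i j) : ℤ) : ℝ) * 1209 ^ (i + j) * 3 ^ 26 := by exact_mod_cast h1
  rw [sgn_T hi hj] at h2
  set F : ℝ := (51).factorial * (25).factorial ^ 2 with hF
  have hFpos : 0 < F := by rw [hF]; positivity
  have h3 : (c : ℝ) * 1000 ^ (i + j) < (-1) ^ i * del qr i j * 1209 ^ (i + j) * 3 ^ 26 := by
    have h4 : ((c : ℝ) * 1000 ^ (i + j)) * F <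
        ((-1) ^ i * del qr i j * 1209 ^ (i + j) * 3 ^ 26) * F := by
      rw [hF]
      rw [hF] at h2
      linarith
    exact lt_of_mul_lt_mul_right h4 hFpos.le
  have hx := x0_bounds.1
  have h1000 : (0 : ℝ) < 1000 ^ (i + j) := by positivity
  have h1209 : (0 : ℝ) < 1209 ^ (i + j) := by positivity
  have hdel : 0 ≤ (-1) ^ i * del qr i j := by
    by_contra hneg
    rw [not_le] at hneg
    have h5 : (-1) ^ i * del qr i j * 1209 ^ (i + j) * 3 ^ 26 < 0 := by
      have : 0 < (1209 : ℝ) ^ (i + j) * 3 ^ 26 := by positivity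
      nlinarith
    have h6 : 0 ≤ (c : ℝ) * 1000 ^ (i + j) := by
      have : (0 : ℝ) ≤ c := by exact_mod_cast hc
      positivity
    linarith
  have h7 : ((1209 : ℝ) / 1000) ^ (i + j) ≤ x0 ^ (i + j) := by
    apply pow_le_pow_left₀ (by norm_num)
    linarith
  rw [div_lt_iff₀ (by positivity)]
  have h8 : (c : ℝ) < (-1) ^ i * del qr i j * (1209 / 1000) ^ (i + j) * 3 ^ 26 := by
    rw [div_pow]
    have : (-1) ^ i * del qr i j * (1209 ^ (i + j) / 1000 ^ (i + j)) * 3 ^ 26 =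
      ((-1) ^ i * del qr i j * 1209 ^ (i + j) * 3 ^ 26) / 1000 ^ (i + j) := by ring
    rw [this, lt_div_iff₀ h1000]
    exact h3
  calc (c : ℝ) < (-1) ^ i * del qr i j * (1209 / 1000) ^ (i + j) * 3 ^ 26 := h8
    _ ≤ (-1) ^ i * del qr i j * x0 ^ (i + j) * 3 ^ 26 := by gcongr
    _ = (-1) ^ i * D i j * 3 ^ 26 := by unfold D; ring

theorem diag_bound (k : ℕ) : 8000 / 3 ^ (25 + k) <
    (-1) ^ (25 + k) * D (25 + k) (25 + k + 1) := by
  induction k with
  | zero =>
    have h := big_bound (i := 25) (j := 26) 24000 le_rfl le_rfl (by norm_num) big2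
    simp only [add_zero]
    have e : ((24000 : ℤ) : ℝ) / 3 ^ 26 = 8000 / 3 ^ 25 := by norm_num
    rw [← e]
    exact h
  | succ k ih =>
    set i := 25 + k with hi
    have h := G_rec (i + 1) i (by omega)
    have h0 : D (i + 1) (i + 1) = 0 := by
      have := D_antisymm (i + 1) (i + 1)
      linarith
    have h1 : D (i + 1) i = - D i (i + 1) := D_antisymm (i + 1) i
    rw [h0, h1] at h
    have e5 : 25 + (k + 1) = i + 1 := by omega
    rw [e5]
    have e : (3 : ℝ) ^ (i + 2) = 9 * 3 ^ i := by ring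
    have e1 : (3 : ℝ) ^ (i + 1) = 3 * 3 ^ i := by ring
    have hp : (0 : ℝ) < 3 ^ i := by positivity
    have e3 : (12000 : ℝ) / (9 * 3 ^ i) = 4000 / 3 * (1 / 3 ^ i) := by
      field_simp
      norm_num
    have e4 : (8000 : ℝ) / (3 * 3 ^ i) = 8000 / 3 * (1 / 3 ^ i) := by
      field_simp
    have e6 : (8000 : ℝ) / 3 ^ i = 8000 * (1 / 3 ^ i) := by ring
    have hq : 0 < 1 / (3 : ℝ) ^ i := by positivity
    rw [e, e3, abs_le] at h
    rw [e6] at ih
    rw [e1, e4]
    have e7 : (-1 : ℝ) ^ (i + 1) * (- D i (i + 1)) = (-1) ^ i * D i (i + 1) := by ring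
    rw [e7] at h
    have e8 : i + 1 + 1 = i + 2 := by omega
    rw [e8]
    have h2 := h.1
    simp only [mul_zero, sub_zero] at h2
    linarith

theorem D_pos {i j : ℕ} (h2 : 2 ≤ i) (hij : i < j) : 0 < (-1) ^ i * D i j := by
  rcases Nat.lt_or_ge i 25 with hi | hi
  · rcases Nat.lt_or_ge j 25 with hj | hj
    · have h := table_pos h2 (by omega) hij (by omega)
      unfold D
      have := mul_pos h (pow_pos x0_pos (i + j))
      linarith
    · have hb := big1
      rw [List.all_eq_true] at hb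
      have h3 := hb i (List.mem_range.mpr hi)
      rw [Bool.or_eq_true, Bool.and_eq_true] at h3
      rcases h3 with h3 | ⟨h3, h4⟩
      · have := of_decide_eq_true h3
        omega
      · have h5 := big_bound 6000 (by omega) (by omega) (by norm_num) h3
        have h6 := big_bound 6000 (by omega) (by omega) (by norm_num) h4
        have e : ((6000 : ℤ) : ℝ) / 3 ^ 26 = 6000 / 3 ^ (25 + 1) := by norm_num
        rw [e] at h5 h6
        exact seqA_pos (fun j => (-1) ^ i * D i j) 25 (6000 / 3 ^ (25 + 1))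
          (fun j hj => G_rec i j (by omega)) h5.le h6.le le_rfl j hj
  · obtain ⟨k, rfl⟩ : ∃ k, i = 25 + k := ⟨i - 25, by omega⟩
    have hg := diag_bound k
    set i := 25 + k with hi'
    have h := G_rec i i (by omega)
    have h0 : D i i = 0 := by
      have := D_antisymm i i
      linarith
    rw [h0] at h
    have e : (3 : ℝ) ^ (i + 2) = 9 * 3 ^ i := by ring
    have hp : (0 : ℝ) < 3 ^ i := by positivity
    have e3 : (12000 : ℝ) / (9 * 3 ^ i) = 4000 / 3 * (1 / 3 ^ i) := by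
      field_simp
      norm_num
    have e6 : (8000 : ℝ) / 3 ^ i = 8000 * (1 / 3 ^ i) := by ring
    have e7 : (6000 : ℝ) / (9 * 3 ^ i) = 2000 / 3 * (1 / 3 ^ i) := by
      field_simp
      norm_num
    have hq : 0 < 1 / (3 : ℝ) ^ i := by positivity
    rw [e, e3, abs_le] at h
    rw [e6] at hg
    have h2' := h.1
    simp only [mul_zero, sub_zero] at h2'
    refine seqA_pos (fun j => (-1) ^ i * D i j) (i + 1) (2000 / 3 * (1 / 3 ^ i))
      (fun j hj => G_rec i j (by omega)) ?_ ?_ ?_ j hij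
    · linarith
    · show _ ≤ (-1) ^ i * D i (i + 2)
      linarith
    · show (6000 : ℝ) / 3 ^ (i + 2) ≤ _
      rw [e, e7]

theorem del_pos {i j : ℕ} (h2 : 2 ≤ i) (hij : i < j) : 0 < (-1) ^ i * del qr i j := by
  have h := D_pos h2 hij
  unfold D at h
  have hx := pow_pos x0_pos (i + j)
  have e : (-1) ^ i * (x0 ^ (i + j) * del qr i j) = ((-1) ^ i * del qr i j) * x0 ^ (i + j) := by
    ring
  rw [e] at h
  exact (mul_pos_iff_of_pos_right hx).mp h

end R371DD
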