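import Mathlib

/-!
Combinatorial part for the double descent problem: descents of words, independence of
disjoint blocks, and the two inclusion-exclusion identities.
-/

namespace R371DD

open Finset Equiv

/-- descents of a word `f : Fin n → α` (0-based; `False` out of range) -/
def dsc {n : ℕ} {α : Type*} [LinearOrder α] (f : Fin n → α) (t : ℕ) : Prop :=
  ∃ h : t + 1 < n, f ⟨t + 1, h⟩ < f ⟨t, by omega⟩

/-- expectation over a uniform random permutation of `Fin n` of a functional of the descents -/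
noncomputable def ex (n : ℕ) (F : (ℕ → Prop) → ℝ) : ℝ :=
  (∑ w : Perm (Fin n), F (dsc w)) / (n.factorial : ℝ)

def trunc (m : ℕ) (d : ℕ → Prop) : ℕ → Prop := fun t => t + 1 < m ∧ d t

theorem dsc_strictMono_comp {n : ℕ} {α β : Type*} [LinearOrder α] [LinearOrder β]
    (e : α → β) (he : StrictMono e) (f : Fin n → α) : dsc (e ∘ f) = dsc f := by
  funext t
  simp only [dsc, Function.comp, he.lt_iff_lt]

theorem dsc_strictMono_comp' {n m : ℕ} {β : Type*} [LinearOrder β]
    (e : Fin m → β) (he : StrictMono e) (f : Fin n → Fin m) : dsc (e ∘ f) = dsc f :=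
  dsc_strictMono_comp e he f

theorem sum_dsc_comp {m : ℕ} {α : Type*} [LinearOrder α] (f : Fin m → α)
    (hf : Function.Injective f) (F : (ℕ → Prop) → ℝ) :
    ∑ σ : Perm (Fin m), F (dsc (f ∘ σ)) = ∑ σ : Perm (Fin m), F (dsc σ) := by
  classical
  set s := Tuple.sort f with hs
  have hmono : StrictMono (f ∘ s) :=
    (Tuple.monotone_sort f).strictMono_of_injective (hf.comp s.injective)
  have h1 : ∀ σ : Perm (Fin m), F (dsc (f ∘ σ)) = F (dsc ((s⁻¹ * σ : Perm (Fin m)))) := by
    intro σ
    have : f ∘ σ = (f ∘ s) ∘ (s⁻¹ * σ : Perm (Fin m)) := by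
      funext x
      simp [Function.comp]
    rw [this, dsc_strictMono_comp' (f ∘ s) hmono]
  rw [Finset.sum_congr rfl (fun σ _ => h1 σ)]
  exact _root_.Equiv.sum_comp (Equiv.mulLeft s⁻¹) (fun σ : Perm (Fin m) => F (dsc σ))

/-- block sum of two permutations -/
def blk {m k : ℕ} (σ : Perm (Fin m)) (τ : Perm (Fin k)) : Perm (Fin (m + k)) :=
  finSumFinEquiv.permCongr (Equiv.sumCongr σ τ)

theorem blk_castAdd {m k : ℕ} (σ : Perm (Fin m)) (τ : Perm (Fin k)) (x : Fin m) :
    blk σ τ (Fin.castAdd k x) = Fin.castAdd k (σ x) := by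
  simp [blk, Equiv.permCongr_apply]

theorem blk_natAdd {m k : ℕ} (σ : Perm (Fin m)) (τ : Perm (Fin k)) (x : Fin k) :
    blk σ τ (Fin.natAdd m x) = Fin.natAdd m (τ x) := by
  simp [blk, Equiv.permCongr_apply]

theorem dsc_castAdd {m k : ℕ} (w : Fin (m + k) → Fin (m + k)) :
    dsc (w ∘ Fin.castAdd k) = trunc m (dsc w) := by
  funext t
  simp only [dsc, trunc, Function.comp, eq_iff_iff]
  constructor
  · rintro ⟨h, h2⟩
    exact ⟨h, by omega, h2⟩
  · rintro ⟨h, h3, h2⟩
    exact ⟨h, h2⟩

theorem dsc_natAdd {m k : ℕ} (w : Fin (m + k) → Fin (m + k)) :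
    dsc (w ∘ Fin.natAdd m) = fun t => dsc w (m + t) := by
  funext t
  simp only [dsc, Function.comp, eq_iff_iff]
  constructor
  · rintro ⟨h, h2⟩
    exact ⟨by omega, h2⟩
  · rintro ⟨h, h2⟩
    exact ⟨by omega, h2⟩

theorem indep (m k : ℕ) (F G : (ℕ → Prop) → ℝ) :
    ex (m + k) (fun d => F (trunc m d) * G (fun t => d (m + t))) = ex m F * ex k G := by
  classical
  have key : ∀ (σ : Perm (Fin m)) (τ : Perm (Fin k)),
      ∑ w : Perm (Fin (m + k)), F (trunc m (dsc w)) * G (fun t => dsc w (m + t)) =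
      ∑ w : Perm (Fin (m + k)), F (dsc ((w ∘ Fin.castAdd k) ∘ σ)) *
        G (dsc ((w ∘ Fin.natAdd m) ∘ τ)) := by
    intro σ τ
    rw [← _root_.Equiv.sum_comp (Equiv.mulRight (blk σ τ))
      (fun w : Perm (Fin (m + k)) => F (trunc m (dsc w)) * G (fun t => dsc w (m + t)))]
    refine Finset.sum_congr rfl fun w _ => ?_
    rw [← dsc_castAdd, ← dsc_natAdd]
    congr 2
    · congr 1
      funext x
      simp [Function.comp, blk_castAdd]
    · congr 1
      funext x
      simp [Function.comp, blk_natAdd]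
  have hinjL : ∀ w : Perm (Fin (m + k)), Function.Injective (w ∘ Fin.castAdd k : Fin m → _) :=
    fun w => w.injective.comp (Fin.castAdd_injective m k)
  have hinjR : ∀ w : Perm (Fin (m + k)), Function.Injective (w ∘ Fin.natAdd m : Fin k → _) :=
    fun w => w.injective.comp (Fin.natAdd_injective k m)
  have h2 : (∑ σ : Perm (Fin m), ∑ τ : Perm (Fin k),
      ∑ w : Perm (Fin (m + k)), F (trunc m (dsc w)) * G (fun t => dsc w (m + t))) =
      ((m + k).factorial : ℝ) * ((∑ σ : Perm (Fin m), F (dsc σ)) *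
        (∑ τ : Perm (Fin k), G (dsc τ))) := by
    calc (∑ σ : Perm (Fin m), ∑ τ : Perm (Fin k),
      ∑ w : Perm (Fin (m + k)), F (trunc m (dsc w)) * G (fun t => dsc w (m + t)))
        = ∑ σ : Perm (Fin m), ∑ τ : Perm (Fin k),
          ∑ w : Perm (Fin (m + k)), F (dsc ((w ∘ Fin.castAdd k) ∘ σ)) *
            G (dsc ((w ∘ Fin.natAdd m) ∘ τ)) := by
          refine Finset.sum_congr rfl fun σ _ => Finset.sum_congr rfl fun τ _ => key σ τ
      _ = ∑ w : Perm (Fin (m + k)), ∑ σ : Perm (Fin m), ∑ τ : Perm (Fin k),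
            F (dsc ((w ∘ Fin.castAdd k) ∘ σ)) * G (dsc ((w ∘ Fin.natAdd m) ∘ τ)) := by
          rw [Finset.sum_comm]
          rw [Finset.sum_congr rfl (fun τ _ => Finset.sum_comm)]
          rw [Finset.sum_comm]
          refine Finset.sum_congr rfl fun w _ => ?_
          rw [Finset.sum_comm]
      _ = ∑ w : Perm (Fin (m + k)), (∑ σ : Perm (Fin m), F (dsc σ)) *
            (∑ τ : Perm (Fin k), G (dsc τ)) := by
          refine Finset.sum_congr rfl fun w _ => ?_
          rw [← sum_dsc_comp _ (hinjL w) F, ← sum_dsc_comp _ (hinjR w) G,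
            Finset.sum_mul_sum]
      _ = _ := by
          rw [Finset.sum_const, Finset.card_univ, Fintype.card_perm, Fintype.card_fin,
            nsmul_eq_mul]
  simp only [Finset.sum_const, Finset.card_univ, Fintype.card_perm, Fintype.card_fin,
    nsmul_eq_mul] at h2
  have hm : (m.factorial : ℝ) ≠ 0 := by positivity
  have hk : (k.factorial : ℝ) ≠ 0 := by positivity
  have hmk : ((m + k).factorial : ℝ) ≠ 0 := by positivity
  unfold ex
  rw [div_mul_div_comm, div_eq_div_iff hmk (mul_ne_zero hm hk)]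
  linarith [h2]


/-- no double descent among the letters `a, …, b-1` -/
def ND (d : ℕ → Prop) (a b : ℕ) : Prop := ∀ t, a ≤ t → t + 2 < b → ¬ (d t ∧ d (t + 1))

/-- the letters `a, …, b-1` are decreasing -/
def Dec (d : ℕ → Prop) (a b : ℕ) : Prop := ∀ t, a ≤ t → t + 1 < b → d t

open Classical in
/-- indicator -/
noncomputable def ind (P : Prop) : ℝ := if P then 1 else 0

theorem ind_and (P Q : Prop) : ind (P ∧ Q) = ind P * ind Q := by
  classical
  unfold ind
  by_cases hP : P <;> by_cases hQ : Q <;> simp [hP, hQ]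

theorem ind_true {P : Prop} (h : P) : ind P = 1 := by
  classical
  simp [ind, h]

theorem ind_false {P : Prop} (h : ¬ P) : ind P = 0 := by
  classical
  simp [ind, h]

theorem ind_congr {P Q : Prop} (h : P ↔ Q) : ind P = ind Q := by
  rw [propext h]

/-- inclusion-exclusion from the front -/
theorem front (n : ℕ) : ∀ (c : ℕ → ℝ) (_ : ∀ k, c k + c (k + 1) + c (k + 2) = 0)
    (d : ℕ → Prop),
    ∑ k ∈ range (n + 2), c k * ind (Dec d 0 k ∧ ND d k (n + 1)) =
      (c 0 + c 1) * ind (ND d 0 (n + 1) ∧ (n = 0 ∨ ¬ d 0)) := by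
  induction n with
  | zero =>
    intro c hc d
    rw [Finset.sum_range_succ, Finset.sum_range_one]
    rw [ind_true (P := Dec d 0 0 ∧ ND d 0 (0 + 1))
        ⟨fun t _ h => by omega, fun t _ h => by omega⟩,
      ind_true (P := Dec d 0 1 ∧ ND d 1 (0 + 1))
        ⟨fun t _ h => by omega, fun t _ h => by omega⟩,
      ind_true (P := ND d 0 (0 + 1) ∧ (0 = 0 ∨ ¬ d 0))
        ⟨fun t _ h => by omega, Or.inl rfl⟩]
    ring
  | succ n ih =>
    intro c hc d
    set e : ℕ → Prop := fun t => d (t + 1) with he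
    have ihe := ih (fun k => c (k + 1)) (fun k => hc (k + 1)) e
    rw [Finset.sum_range_succ'] at ihe
    rw [Finset.sum_range_succ', Finset.sum_range_succ']
    have hND : ∀ k m, ND d (k + 1) (m + 1) ↔ ND e k m := by
      intro k m
      constructor
      · intro h t h1 h2
        exact h (t + 1) (by omega) (by omega)
      · intro h t h1 h2
        obtain ⟨s, rfl⟩ : ∃ s, t = s + 1 := ⟨t - 1, by omega⟩
        exact h s (by omega) (by omega)
    have hterm : ∀ k, ind (Dec d 0 (k + 1 + 1) ∧ ND d (k + 1 + 1) (n + 1 + 1)) =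
        ind (d 0) * ind (Dec e 0 (k + 1) ∧ ND e (k + 1) (n + 1)) := by
      intro k
      rw [← ind_and]
      apply ind_congr
      rw [hND, ← and_assoc]
      refine and_congr ?_ Iff.rfl
      constructor
      · intro h
        exact ⟨h 0 le_rfl (by omega), fun t _ h2 => h (t + 1) (by omega) (by omega)⟩
      · rintro ⟨h0, h⟩ t _ h2
        rcases t with _ | t
        · exact h0
        · exact h t (by omega) (by omega)
    have hsum : ∑ k ∈ range (n + 1), c (k + 1 + 1) *
        ind (Dec d 0 (k + 1 + 1) ∧ ND d (k + 1 + 1) (n + 1 + 1)) =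
        ind (d 0) * ∑ k ∈ range (n + 1), c (k + 1 + 1) *
          ind (Dec e 0 (k + 1) ∧ ND e (k + 1) (n + 1)) := by
      rw [Finset.mul_sum]
      refine Finset.sum_congr rfl fun k _ => ?_
      rw [hterm]; ring
    rw [hsum]
    have hX : ∑ k ∈ range (n + 1), c (k + 1 + 1) *
          ind (Dec e 0 (k + 1) ∧ ND e (k + 1) (n + 1)) =
        (c 1 + c 2) * ind (ND e 0 (n + 1) ∧ (n = 0 ∨ ¬ e 0)) -
          c 1 * ind (ND e 0 (n + 1)) := by
      have h0 : ind (Dec e 0 0 ∧ ND e 0 (n + 1)) = ind (ND e 0 (n + 1)) :=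
        ind_congr ⟨fun h => h.2, fun h => ⟨fun t _ h => by omega, h⟩⟩
      rw [h0] at ihe
      linarith [ihe]
    rw [hX]
    have hc0 : c 1 + c 2 = - c 0 := by linarith [hc 0]
    have h1 : ind (Dec d 0 (0 + 1) ∧ ND d (0 + 1) (n + 1 + 1)) = ind (ND e 0 (n + 1)) := by
      apply ind_congr
      rw [hND]
      exact ⟨fun h => h.2, fun h => ⟨fun t _ h => by omega, h⟩⟩
    have h2 : ind (Dec d 0 0 ∧ ND d 0 (n + 1 + 1)) = ind (ND d 0 (n + 1 + 1)) := by
      apply ind_congr
      exact ⟨fun h => h.2, fun h => ⟨fun t _ h => by omega, h⟩⟩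
    rw [h1, h2, hc0]
    by_cases hd : d 0
    · have h3 : ind (ND d 0 (n + 1 + 1)) = ind (ND e 0 (n + 1) ∧ (n = 0 ∨ ¬ e 0)) := by
        apply ind_congr
        constructor
        · intro h
          refine ⟨fun t _ h2 => h (t + 1) (by omega) (by omega), ?_⟩
          by_cases hn : n = 0
          · exact Or.inl hn
          · exact Or.inr fun he0 => h 0 le_rfl (by omega) ⟨hd, he0⟩
        · rintro ⟨h, h'⟩ t _ h2
          rcases t with _ | t
          · rintro ⟨_, h4⟩
            rcases h' with h' | h'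
            · omega
            · exact h' h4
          · exact h t (by omega) (by omega)
      rw [h3, ind_true hd, ind_false (P := ND d 0 (n + 1 + 1) ∧ (n + 1 = 0 ∨ ¬ d 0))
        (fun h => by rcases h.2 with h | h <;> [omega; exact h hd])]
      simp only [zero_add]
      ring
    · have h3 : ind (ND d 0 (n + 1 + 1)) = ind (ND e 0 (n + 1)) := by
        apply ind_congr
        constructor
        · intro h t _ h2
          exact h (t + 1) (by omega) (by omega)
        · intro h t _ h2
          rcases t with _ | t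
          · exact fun h4 => hd h4.1
          · exact h t (by omega) (by omega)
      have h4 : ind (ND d 0 (n + 1 + 1) ∧ (n + 1 = 0 ∨ ¬ d 0)) = ind (ND d 0 (n + 1 + 1)) :=
        ind_congr ⟨fun h => h.1, fun h => ⟨h, Or.inr hd⟩⟩
      rw [h4, h3, ind_false hd]
      simp only [zero_add]
      ring

/-- inclusion-exclusion from the end -/
theorem back (n : ℕ) : ∀ (c : ℕ → ℝ) (_ : ∀ k, c k + c (k + 1) + c (k + 2) = 0)
    (d : ℕ → Prop),
    ∑ k ∈ range (n + 2), c k * ind (Dec d (n + 1 - k) (n + 1) ∧ ND d 0 (n + 1 - k)) =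
      (c 0 + c 1) * ind (ND d 0 (n + 1) ∧ (n = 0 ∨ ¬ d (n - 1))) := by
  induction n with
  | zero =>
    intro c hc d
    rw [Finset.sum_range_succ, Finset.sum_range_one]
    rw [ind_true (P := Dec d (0 + 1 - 0) (0 + 1) ∧ ND d 0 (0 + 1 - 0))
        ⟨fun t _ h => by omega, fun t _ h => by omega⟩,
      ind_true (P := Dec d (0 + 1 - 1) (0 + 1) ∧ ND d 0 (0 + 1 - 1))
        ⟨fun t _ h => by omega, fun t _ h => by omega⟩,
      ind_true (P := ND d 0 (0 + 1) ∧ (0 = 0 ∨ ¬ d (0 - 1)))
        ⟨fun t _ h => by omega, Or.inl rfl⟩]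
    ring
  | succ n ih =>
    intro c hc d
    have ihe := ih (fun k => c (k + 1)) (fun k => hc (k + 1)) d
    rw [Finset.sum_range_succ'] at ihe
    rw [Finset.sum_range_succ', Finset.sum_range_succ']
    have hterm : ∀ k, k ∈ range (n + 1) →
        ind (Dec d (n + 1 + 1 - (k + 1 + 1)) (n + 1 + 1) ∧ ND d 0 (n + 1 + 1 - (k + 1 + 1))) =
        ind (d n) * ind (Dec d (n + 1 - (k + 1)) (n + 1) ∧ ND d 0 (n + 1 - (k + 1))) := by
      intro k hk
      rw [← ind_and]
      apply ind_congr
      have h1 : n + 1 + 1 - (k + 1 + 1) = n + 1 - (k + 1) := by omega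
      rw [h1, ← and_assoc]
      refine and_congr ?_ Iff.rfl
      constructor
      · intro h
        exact ⟨h n (by omega) (by omega), fun t h1 h2 => h t h1 (by omega)⟩
      · rintro ⟨h0, h⟩ t h1 h2
        by_cases htn : t = n
        · exact htn ▸ h0
        · exact h t h1 (by omega)
    have hsum : ∑ k ∈ range (n + 1), c (k + 1 + 1) *
        ind (Dec d (n + 1 + 1 - (k + 1 + 1)) (n + 1 + 1) ∧ ND d 0 (n + 1 + 1 - (k + 1 + 1))) =
        ind (d n) * ∑ k ∈ range (n + 1), c (k + 1 + 1) *
          ind (Dec d (n + 1 - (k + 1)) (n + 1) ∧ ND d 0 (n + 1 - (k + 1))) := by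
      rw [Finset.mul_sum]
      refine Finset.sum_congr rfl fun k hk => ?_
      rw [hterm k hk]; ring
    rw [hsum]
    have hX : ∑ k ∈ range (n + 1), c (k + 1 + 1) *
          ind (Dec d (n + 1 - (k + 1)) (n + 1) ∧ ND d 0 (n + 1 - (k + 1))) =
        (c 1 + c 2) * ind (ND d 0 (n + 1) ∧ (n = 0 ∨ ¬ d (n - 1))) -
          c 1 * ind (ND d 0 (n + 1)) := by
      have h0 : ind (Dec d (n + 1 - 0) (n + 1) ∧ ND d 0 (n + 1 - 0)) = ind (ND d 0 (n + 1)) :=
        ind_congr ⟨fun h => h.2, fun h => ⟨fun t _ h => by omega, h⟩⟩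
      rw [h0] at ihe
      linarith [ihe]
    rw [hX]
    have hc0 : c 1 + c 2 = - c 0 := by linarith [hc 0]
    have h1 : ind (Dec d (n + 1 + 1 - (0 + 1)) (n + 1 + 1) ∧ ND d 0 (n + 1 + 1 - (0 + 1))) =
        ind (ND d 0 (n + 1)) := by
      apply ind_congr
      exact ⟨fun h => h.2, fun h => ⟨fun t _ h => by omega, h⟩⟩
    have h2 : ind (Dec d (n + 1 + 1 - 0) (n + 1 + 1) ∧ ND d 0 (n + 1 + 1 - 0)) =
        ind (ND d 0 (n + 1 + 1)) := by
      apply ind_congr
      exact ⟨fun h => h.2, fun h => ⟨fun t _ h => by omega, h⟩⟩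
    rw [h1, h2, hc0]
    have hn1 : n + 1 - 1 = n := by omega
    rw [hn1]
    by_cases hd : d n
    · have h3 : ind (ND d 0 (n + 1 + 1)) = ind (ND d 0 (n + 1) ∧ (n = 0 ∨ ¬ d (n - 1))) := by
        apply ind_congr
        constructor
        · intro h
          refine ⟨fun t _ h2 => h t (by omega) (by omega), ?_⟩
          by_cases hn : n = 0
          · exact Or.inl hn
          · refine Or.inr fun he0 => h (n - 1) (by omega) (by omega) ⟨he0, ?_⟩
            have : n - 1 + 1 = n := by omega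
            rw [this]; exact hd
        · rintro ⟨h, h'⟩ t _ h2
          by_cases htn : t + 1 = n
          · rintro ⟨h4, _⟩
            rcases h' with h' | h'
            · omega
            · have : n - 1 = t := by omega
              rw [this] at h'
              exact h' h4
          · exact h t (by omega) (by omega)
      rw [h3, ind_true hd, ind_false (P := ND d 0 (n + 1 + 1) ∧ (n + 1 = 0 ∨ ¬ d n))
        (fun h => by rcases h.2 with h | h <;> [omega; exact h hd])]
      simp only [zero_add]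
      ring
    · have h3 : ind (ND d 0 (n + 1 + 1)) = ind (ND d 0 (n + 1)) := by
        apply ind_congr
        constructor
        · intro h t _ h2
          exact h t (by omega) (by omega)
        · intro h t _ h2
          by_cases htn : t + 1 = n
          · rintro ⟨_, h4⟩
            rw [htn] at h4
            exact hd h4
          · exact h t (by omega) (by omega)
      have h4 : ind (ND d 0 (n + 1 + 1) ∧ (n + 1 = 0 ∨ ¬ d n)) = ind (ND d 0 (n + 1 + 1)) :=
        ind_congr ⟨fun h => h.1, fun h => ⟨h, Or.inr hd⟩⟩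
      rw [h4, h3, ind_false hd]
      simp only [zero_add]
      ring

end R371DD
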