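import Pool.Agent.R371.DD.Comb

/-!
The counting formulas: recursion for words without double descent, double-sum formula for
words with exactly one double descent at a given place.
-/

namespace R371DD

open Finset Equiv

theorem ex_sum {ι : Type*} (n : ℕ) (s : Finset ι) (F : ι → (ℕ → Prop) → ℝ) :
    ex n (fun d => ∑ i ∈ s, F i d) = ∑ i ∈ s, ex n (F i) := by
  unfold ex
  rw [Finset.sum_comm, Finset.sum_div]

theorem ex_mul (n : ℕ) (c : ℝ) (F : (ℕ → Prop) → ℝ) :
    ex n (fun d => c * F d) = c * ex n F := by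
  unfold ex
  rw [← Finset.mul_sum, mul_div_assoc]

theorem ex_congr (n : ℕ) {F G : (ℕ → Prop) → ℝ} (h : ∀ d, F d = G d) : ex n F = ex n G := by
  have : F = G := funext h
  rw [this]

/-- probability of no double descent -/
noncomputable def up (n : ℕ) : ℝ := ex n (fun d => ind (ND d 0 n))

theorem up_zero : up 0 = 1 := by
  unfold up ex
  have : ∀ w : Perm (Fin 0), ind (ND (dsc w) 0 0) = 1 :=
    fun w => ind_true (fun t _ h => by omega)
  rw [Finset.sum_congr rfl (fun w _ => this w)]
  simp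

theorem strictAnti_of_Dec {k : ℕ} (w : Perm (Fin k)) (h : Dec (dsc w) 0 k) :
    StrictAnti w := by
  rcases k with _ | k
  · intro x
    exact x.elim0
  · rw [Fin.strictAnti_iff_succ_lt]
    intro i
    obtain ⟨h1, h2⟩ := h i.1 (by omega) (by omega)
    exact h2

theorem ex_Dec (k : ℕ) : ex k (fun d => ind (Dec d 0 k)) = 1 / (k.factorial : ℝ) := by
  unfold ex
  congr 1
  have hrev : Dec (dsc (Fin.revPerm : Perm (Fin k))) 0 k := by
    intro t _ ht
    refine ⟨ht, ?_⟩
    simp only [Fin.revPerm_apply]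
    rw [Fin.rev_lt_rev]
    simp [Fin.lt_def]
  rw [Finset.sum_eq_single (Fin.revPerm : Perm (Fin k))]
  · exact ind_true hrev
  · intro w _ hw
    refine ind_false fun hd => hw ?_
    have h1 := strictAnti_of_Dec w hd
    have h2 := strictAnti_of_Dec _ hrev
    have h3 : StrictMono (w ∘ (Fin.revPerm : Perm (Fin k))) := h1.comp h2
    have h4 : (w ∘ (Fin.revPerm : Perm (Fin k))) = id := by
      rw [← StrictMono.range_inj h3 strictMono_id, Set.range_id]
      exact (w.surjective.comp (Fin.revPerm : Perm (Fin k)).surjective).range_eq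
    ext x
    have h5 := congrFun h4 (Fin.revPerm x)
    simp only [Function.comp, Fin.revPerm_apply, Fin.rev_rev, id] at h5
    rw [h5]
    rfl
  · intro h
    exact absurd (Finset.mem_univ _) h

theorem ND_trunc (d : ℕ → Prop) (m : ℕ) : ND (trunc m d) 0 m ↔ ND d 0 m := by
  constructor
  · intro h t h1 h2 h3
    exact h t h1 h2 ⟨⟨by omega, h3.1⟩, ⟨by omega, h3.2⟩⟩
  · intro h t h1 h2 h3
    exact h t h1 h2 ⟨h3.1.2, h3.2.2⟩

theorem Dec_trunc (d : ℕ → Prop) (m : ℕ) : Dec (trunc m d) 0 m ↔ Dec d 0 m := by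
  constructor
  · intro h t h1 h2
    exact (h t h1 h2).2
  · intro h t h1 h2
    exact ⟨h2, h t h1 h2⟩

theorem ND_shift (d : ℕ → Prop) (m a b : ℕ) :
    ND (fun t => d (m + t)) a b ↔ ND d (m + a) (m + b) := by
  constructor
  · intro h t h1 h2 h3
    refine h (t - m) (by omega) (by omega) ?_
    have e1 : m + (t - m) = t := by omega
    have e2 : m + (t - m + 1) = t + 1 := by omega
    simp only [e1, e2]
    exact h3
  · intro h t h1 h2 h3
    exact h (m + t) (by omega) (by omega) h3

theorem Dec_shift (d : ℕ → Prop) (m a b : ℕ) :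
    Dec (fun t => d (m + t)) a b ↔ Dec d (m + a) (m + b) := by
  constructor
  · intro h t h1 h2
    have := h (t - m) (by omega) (by omega)
    have e1 : m + (t - m) = t := by omega
    simp only [e1] at this
    exact this
  · intro h t h1 h2
    exact h (m + t) (by omega) (by omega)

theorem ex2 (s k : ℕ) : ex (s + k) (fun d => ind (Dec d 0 s) * ind (ND d s (s + k))) =
    1 / (s.factorial : ℝ) * up k := by
  rw [← ex_Dec, up, ← indep]
  apply ex_congr
  intro d
  rw [ind_congr (Dec_trunc d s), ind_congr (ND_shift d s 0 k), add_zero]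

theorem ex3 (m s k : ℕ) : ex (m + (s + k)) (fun d => ind (ND d 0 m) *
    (ind (Dec d m (m + s)) * ind (ND d (m + s) (m + (s + k))))) =
    up m * (1 / (s.factorial : ℝ) * up k) := by
  rw [← ex2, up, ← indep]
  apply ex_congr
  intro d
  rw [ind_congr (ND_trunc d m), ind_congr (Dec_shift d m 0 s),
    ind_congr (ND_shift d m s (s + k)), add_zero]

/-- the recursion for `up` -/
theorem up_rec (p : ℕ → ℝ) (hp : ∀ k, p k + p (k + 1) + p (k + 2) = 0) (hp0 : p 0 + p 1 = 0)
    (n : ℕ) : ∑ k ∈ range (n + 2), p k / (k.factorial : ℝ) * up (n + 1 - k) = 0 := by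
  have h1 : ∀ k ∈ range (n + 2), p k / (k.factorial : ℝ) * up (n + 1 - k) =
      ex (n + 1) (fun d => p k * ind (Dec d 0 k ∧ ND d k (n + 1))) := by
    intro k hk
    rw [Finset.mem_range] at hk
    obtain ⟨m, hm⟩ : ∃ m, n + 1 = k + m := ⟨n + 1 - k, by omega⟩
    rw [ex_mul, hm]
    have h2 : k + m - k = m := by omega
    rw [h2]
    have h3 := ex2 k m
    rw [ex_congr (k + m) (G := fun d => ind (Dec d 0 k) * ind (ND d k (k + m)))
      (fun d => ind_and _ _), h3]
    ring
  rw [Finset.sum_congr rfl h1, ← ex_sum]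
  have h4 : ∀ d : ℕ → Prop, ∑ k ∈ range (n + 2), p k * ind (Dec d 0 k ∧ ND d k (n + 1)) =
      0 := by
    intro d
    rw [front n p hp d, hp0, zero_mul]
  rw [ex_congr (n + 1) h4]
  unfold ex
  simp

/-- exactly one double descent, at the letters `l, l+1, l+2` of a word of length `l+3+r` -/
def SD (l r : ℕ) (d : ℕ → Prop) : Prop :=
  d l ∧ d (l + 1) ∧ ∀ t, t + 2 < l + 3 + r → t ≠ l → ¬ (d t ∧ d (t + 1))

theorem SD_iff (l r : ℕ) (d : ℕ → Prop) : SD l r d ↔
    ((ND d 0 (l + 1) ∧ (l = 0 ∨ ¬ d (l - 1))) ∧ (d l ∧ d (l + 1))) ∧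
      (ND (fun t => d (l + 2 + t)) 0 (r + 1) ∧ (r = 0 ∨ ¬ d (l + 2 + 0))) := by
  constructor
  · rintro ⟨h1, h2, h3⟩
    refine ⟨⟨⟨fun t _ ht => h3 t (by omega) (by omega), ?_⟩, h1, h2⟩,
      fun t _ ht => h3 (l + 2 + t) (by omega) (by omega), ?_⟩
    · by_cases hl : l = 0
      · exact Or.inl hl
      · refine Or.inr fun h => h3 (l - 1) (by omega) (by omega) ⟨h, ?_⟩
        have : l - 1 + 1 = l := by omega
        rw [this]; exact h1
    · by_cases hr : r = 0
      · exact Or.inl hr
      · exact Or.inr fun h => h3 (l + 1) (by omega) (by omega) ⟨h2, h⟩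
  · rintro ⟨⟨⟨h1, h2⟩, h3, h4⟩, h5, h6⟩
    refine ⟨h3, h4, fun t ht htl => ?_⟩
    rcases Nat.lt_or_gt_of_ne htl with hlt | hgt
    · by_cases ht1 : t + 1 = l
      · rcases h2 with h2 | h2
        · omega
        · intro h
          have : l - 1 = t := by omega
          rw [this] at h2
          exact h2 h.1
      · exact h1 t (by omega) (by omega)
    · by_cases ht1 : t = l + 1
      · rcases h6 with h6 | h6
        · omega
        · intro h
          rw [ht1] at h
          exact h6 h.2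
      · have := h5 (t - (l + 2)) (by omega) (by omega)
        have e1 : l + 2 + (t - (l + 2)) = t := by omega
        have e2 : l + 2 + (t - (l + 2) + 1) = t + 1 := by omega
        simp only [e1, e2] at this
        exact this

theorem ind_SD (q : ℕ → ℝ) (hq : ∀ k, q k + q (k + 1) + q (k + 2) = 0) (hq0 : q 0 = 0)
    (hq1 : q 1 = 1) (l r : ℕ) (d : ℕ → Prop) :
    ind (SD l r d) = ∑ a ∈ range (l + 1), ∑ b ∈ range (r + 1), q (a + 1) * q (b + 1) *
      (ind (ND d 0 (l - a)) * (ind (Dec d (l - a) (l - a + (a + b + 3))) *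
        ind (ND d (l - a + (a + b + 3)) (l + 3 + r)))) := by
  rw [ind_congr (SD_iff l r d), ind_and, ind_and]
  have h1 := back l q hq d
  have h2 := front r q hq (fun t => d (l + 2 + t))
  rw [hq0, hq1, zero_add, one_mul] at h1 h2
  rw [← h1, ← h2, Finset.sum_range_succ' _ (l + 1), Finset.sum_range_succ' _ (r + 1), hq0,
    zero_mul, zero_mul, add_zero, add_zero, Finset.sum_mul, Finset.sum_mul_sum]
  refine Finset.sum_congr rfl fun a ha => Finset.sum_congr rfl fun b hb => ?_
  rw [Finset.mem_range] at ha hb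
  have e1 : l + 1 - (a + 1) = l - a := by omega
  rw [e1, ind_and, ind_and (Dec (fun t => d (l + 2 + t)) 0 (b + 1)),
    ind_congr (Dec_shift d (l + 2) 0 (b + 1)), ind_congr (ND_shift d (l + 2) (b + 1) (r + 1))]
  have e2 : l + 2 + (b + 1) = l - a + (a + b + 3) := by omega
  have e3 : l + 2 + (r + 1) = l + 3 + r := by omega
  rw [e2, e3, add_zero]
  have e4 : ind (Dec d (l - a) (l - a + (a + b + 3))) =
      ind (Dec d (l - a) (l + 1)) * ind (d l ∧ d (l + 1)) *
        ind (Dec d (l + 2) (l - a + (a + b + 3))) := by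
    rw [← ind_and, ← ind_and]
    apply ind_congr
    constructor
    · intro h
      exact ⟨⟨fun t h1 h2 => h t h1 (by omega), h l (by omega) (by omega),
        h (l + 1) (by omega) (by omega)⟩, fun t h1 h2 => h t (by omega) h2⟩
    · rintro ⟨⟨h1, h2, h3⟩, h4⟩ t h5 h6
      rcases Nat.lt_trichotomy t l with h | h | h
      · exact h1 t h5 (by omega)
      · exact h ▸ h2
      · by_cases h7 : t = l + 1
        · exact h7 ▸ h3
        · exact h4 t (by omega) h6
  rw [e4]
  ring

/-- probability of exactly one double descent at place `l` -/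
noncomputable def AA (l r : ℕ) : ℝ := ex (l + 3 + r) (fun d => ind (SD l r d))

theorem AA_eq (q : ℕ → ℝ) (hq : ∀ k, q k + q (k + 1) + q (k + 2) = 0) (hq0 : q 0 = 0)
    (hq1 : q 1 = 1) (l r : ℕ) :
    AA l r = ∑ a ∈ range (l + 1), ∑ b ∈ range (r + 1), q (a + 1) * q (b + 1) /
      ((a + b + 3).factorial : ℝ) * (up (l - a) * up (r - b)) := by
  unfold AA
  rw [ex_congr _ (ind_SD q hq hq0 hq1 l r), ex_sum]
  refine Finset.sum_congr rfl fun a ha => ?_
  rw [ex_sum]
  refine Finset.sum_congr rfl fun b hb => ?_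
  rw [Finset.mem_range] at ha hb
  rw [ex_mul]
  have e1 : l + 3 + r = (l - a) + ((a + b + 3) + (r - b)) := by omega
  rw [e1, ex3]
  ring

/-- the difference of two neighbouring probabilities -/
noncomputable def del (q : ℕ → ℝ) (i j : ℕ) : ℝ :=
  ∑ a ∈ range i, ∑ b ∈ range j, (q a * q (b + 1) - q (a + 1) * q b) /
    ((a + b + 2).factorial : ℝ) * (up (i - 1 - a) * up (j - 1 - b))

theorem AA_sub (q : ℕ → ℝ) (hq : ∀ k, q k + q (k + 1) + q (k + 2) = 0) (hq0 : q 0 = 0)
    (hq1 : q 1 = 1) (i j : ℕ) :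
    AA i (j + 1) - AA (i + 1) j = del q (i + 2) (j + 2) := by
  rw [AA_eq q hq hq0 hq1, AA_eq q hq hq0 hq1]
  unfold del
  have h : ∀ a b : ℕ, (q a * q (b + 1) - q (a + 1) * q b) /
    ((a + b + 2).factorial : ℝ) * (up (i + 2 - 1 - a) * up (j + 2 - 1 - b)) =
    q a * q (b + 1) / ((a + b + 2).factorial : ℝ) * (up (i + 1 - a) * up (j + 1 - b)) -
    q (a + 1) * q b / ((a + b + 2).factorial : ℝ) * (up (i + 1 - a) * up (j + 1 - b)) := by
    intro a b
    have e1 : i + 2 - 1 - a = i + 1 - a := by omega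
    have e2 : j + 2 - 1 - b = j + 1 - b := by omega
    rw [e1, e2]
    ring
  simp only [h, Finset.sum_sub_distrib]
  congr 1
  · rw [Finset.sum_range_succ' _ (i + 1)]
    simp only [hq0, zero_mul, zero_div, Finset.sum_const_zero, add_zero]
    refine Finset.sum_congr rfl fun a ha => Finset.sum_congr rfl fun b hb => ?_
    have e1 : i + 1 - (a + 1) = i - a := by omega
    have e2 : a + 1 + b + 2 = a + b + 3 := by omega
    rw [e1, e2]
  · refine Finset.sum_congr rfl fun a ha => ?_
    rw [Finset.sum_range_succ' _ (j + 1)]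
    simp only [hq0, mul_zero, zero_mul, zero_div, add_zero]
    refine Finset.sum_congr rfl fun b hb => ?_
    have e1 : j + 1 - (b + 1) = j - b := by omega
    have e2 : a + (b + 1) + 2 = a + b + 3 := by omega
    rw [e1, e2]

end R371DD
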